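import Pool.Agent.Run7.h879.DS.Res

/-!
# A potentially abelian representation and a residually irreducible one with a unipotent element
-/

set_option autoImplicit false
set_option linter.unusedSectionVars false

namespace Pool.Agent.Run7.h879.DS

open Module Matrix

variable {G : Type} [Group G] {ℓ : ℕ} [hℓ : Fact ℓ.Prime] {n m : ℕ}

/-- The residual representation. -/
noncomputable def bar (ρ : G →* GL (Fin n) ℤ_[ℓ]) : G →* Matrix (Fin n) (Fin n) (ZMod ℓ) :=
  (RingHom.toMonoidHom (RingHom.mapMatrix (PadicInt.toZMod (p := ℓ)))).comp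
      ((Units.coeHom _).comp ρ)

theorem bar_apply (ρ : G →* GL (Fin n) ℤ_[ℓ]) (x : G) :
    bar ρ x = (ρ x : Matrix (Fin n) (Fin n) ℤ_[ℓ]).map (PadicInt.toZMod (p := ℓ)) := rfl

theorem rv_gs (ρ : G →* GL (Fin n) ℤ_[ℓ]) (x : G) (z : Lt ρ) :
    rv (tv ρ (MonoidAlgebra.of ℤ_[ℓ] G x • z)) = (bar ρ x).mulVec (rv (tv ρ z)) := by
  have h := gs ρ x z
  have h2 : tv ρ (MonoidAlgebra.of ℤ_[ℓ] G x • z) =
      (ρ x : Matrix (Fin n) (Fin n) ℤ_[ℓ]).mulVec (tv ρ z) := h
  rw [h2, rv_mulVec, bar_apply]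

/-- The action of the group on a module over the group ring. -/
noncomputable def act (S : Type) [AddCommGroup S] [Module (MonoidAlgebra ℤ_[ℓ] G) S] :
    G →* Equiv.Perm S where
  toFun x :=
    { toFun := fun s => MonoidAlgebra.of ℤ_[ℓ] G x • s
      invFun := fun s => MonoidAlgebra.of ℤ_[ℓ] G x⁻¹ • s
      left_inv := fun s => by
        show MonoidAlgebra.of ℤ_[ℓ] G x⁻¹ • (MonoidAlgebra.of ℤ_[ℓ] G x • s) = s
        rw [smul_smul, ← map_mul, inv_mul_cancel, map_one, one_smul]
      right_inv := fun s => by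
        show MonoidAlgebra.of ℤ_[ℓ] G x • (MonoidAlgebra.of ℤ_[ℓ] G x⁻¹ • s) = s
        rw [smul_smul, ← map_mul, mul_inv_cancel, map_one, one_smul] }
  map_one' := by
    ext s
    show MonoidAlgebra.of ℤ_[ℓ] G 1 • s = s
    rw [map_one, one_smul]
  map_mul' x y := by
    ext s
    show MonoidAlgebra.of ℤ_[ℓ] G (x * y) • s =
      MonoidAlgebra.of ℤ_[ℓ] G x • MonoidAlgebra.of ℤ_[ℓ] G y • s
    rw [map_mul, smul_smul]

theorem act_apply (S : Type) [AddCommGroup S] [Module (MonoidAlgebra ℤ_[ℓ] G) S] (x : G) (s : S) :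
    act (ℓ := ℓ) S x s = MonoidAlgebra.of ℤ_[ℓ] G x • s := rfl

theorem sep_ab {α : G →* GL (Fin n) ℤ_[ℓ]} {β : G →* GL (Fin m) ℤ_[ℓ]} (hirr : ResIrr β)
    (H : Subgroup G) [hN : H.Normal] (hℓH : ¬ ℓ ∣ H.index)
    (hcomm : ∀ g ∈ H, ∀ h ∈ H, α g * α h = α h * α g) (u : G) (a : ℕ)
    (hu : bar β u ^ (ℓ ^ a) = 1) (hu1 : bar β u ≠ 1) :
    Sep (MonoidAlgebra ℤ_[ℓ] G) (Lt α) (Lt β) := by
  classical
  intro S _ _ _ f g hf hg
  apply hu1
  have hker := ker_iff hirr g hg
  -- trivial action on `S` and on the residual representation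
  have hone : ∀ x : G, bar β x = 1 → act (ℓ := ℓ) S x = 1 := by
    intro x hx
    ext s
    obtain ⟨z, rfl⟩ := hg s
    rw [act_apply, Equiv.Perm.one_apply, ← map_smul, ← sub_eq_zero, ← map_sub, hker, map_sub,
      rv_sub, rv_gs, hx, Matrix.one_mulVec, sub_self]
  have hone' : ∀ x : G, act (ℓ := ℓ) S x = 1 → bar β x = 1 := by
    intro x hx
    ext i j
    have h1 : g (MonoidAlgebra.of ℤ_[ℓ] G x • (tv β).symm (Pi.single j 1) -
        (tv β).symm (Pi.single j 1)) = 0 := by
      rw [map_sub, map_smul, ← act_apply, hx, Equiv.Perm.one_apply, sub_self]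
    rw [hker, map_sub, rv_sub, rv_gs, sub_eq_zero, LinearEquiv.apply_symm_apply] at h1
    have h2 : rv (Pi.single j 1 : Fin m → ℤ_[ℓ]) = Pi.single j 1 := by
      funext i
      by_cases hij : i = j
      · subst hij; simp [rv]
      · simp [rv, hij]
    rw [h2] at h1
    have h3 := congrFun h1 i
    rw [Matrix.mulVec_single_one] at h3
    rw [Matrix.one_apply]
    simpa [Pi.single_apply] using h3
  have hupow : act (ℓ := ℓ) S u ^ (ℓ ^ a) = 1 := by
    rw [← map_pow]
    apply hone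
    rw [map_pow]
    exact hu
  -- commuting actions
  have hH : ∀ x ∈ H, ∀ y ∈ H, Commute (act (ℓ := ℓ) S x) (act (ℓ := ℓ) S y) := by
    intro x hx y hy
    have h0 : ∀ z : Lt α, MonoidAlgebra.of ℤ_[ℓ] G (x * y) • z =
        MonoidAlgebra.of ℤ_[ℓ] G (y * x) • z := by
      intro z
      apply (tv α).injective
      have h1 := gs α (x * y) z
      have h2 := gs α (y * x) z
      rw [map_mul, hcomm x hx y hy, ← map_mul, ← h2] at h1
      exact h1
    show act (ℓ := ℓ) S x * act (ℓ := ℓ) S y = act (ℓ := ℓ) S y * act (ℓ := ℓ) S x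
    rw [← map_mul, ← map_mul]
    ext s
    obtain ⟨z, rfl⟩ := hf s
    rw [act_apply, act_apply, ← map_smul, ← map_smul, h0]
  set N := H.index with hNdef
  let V : Subgroup G := Subgroup.normalClosure {u ^ N}
  have hVH : V ≤ H := by
    apply Subgroup.normalClosure_le_normal
    rw [Set.singleton_subset_iff]
    exact H.pow_index_mem u
  have hVpow : ∀ v ∈ V, act (ℓ := ℓ) S v ^ (ℓ ^ a) = 1 := by
    intro v hv
    refine Subgroup.closure_induction (p := fun v _ => act (ℓ := ℓ) S v ^ (ℓ ^ a) = 1)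
      ?_ ?_ ?_ ?_ (show v ∈ Subgroup.closure (Group.conjugatesOfSet {u ^ N}) from hv)
    · intro x hx
      rw [Group.mem_conjugatesOfSet_iff] at hx
      obtain ⟨y, hy, hc⟩ := hx
      rw [Set.mem_singleton_iff] at hy
      subst hy
      obtain ⟨c, hc⟩ := isConj_iff.1 hc
      rw [← hc, map_mul, map_mul, map_inv, conj_pow, map_pow, ← pow_mul, mul_comm, pow_mul, hupow,
        one_pow, mul_one, mul_inv_cancel]
    · rw [map_one, one_pow]
    · intro x y hx hy h1 h2
      rw [map_mul, (hH x (hVH hx) y (hVH hy)).mul_pow, h1, h2, mul_one]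
    · intro x _ h1
      rw [map_inv, inv_pow, h1, inv_one]
  -- finiteness
  have hfin : Finite S := by
    have hne : NeZero ℓ := ⟨hℓ.out.ne_zero⟩
    have hs : Function.Surjective (fun t : Fin m → ZMod ℓ =>
        g ((tv β).symm (fun i => ((t i).val : ℤ_[ℓ])))) := by
      intro s
      obtain ⟨z, rfl⟩ := hg s
      refine ⟨rv (tv β z), ?_⟩
      show g _ = g z
      rw [← sub_eq_zero, ← map_sub, hker, map_sub, rv_sub, LinearEquiv.apply_symm_apply, sub_eq_zero]
      funext i
      show PadicInt.toZMod (((rv (tv β z) i).val : ℤ_[ℓ])) = rv (tv β z) i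
      rw [map_natCast, ZMod.natCast_val, ZMod.cast_id', id_eq]
    exact Finite.of_surjective _ hs
  have hnt : Nontrivial S := IsSimpleModule.nontrivial (MonoidAlgebra ℤ_[ℓ] G) S
  have hℓS : ∀ s : S, ℓ • s = 0 := by
    intro s
    obtain ⟨z, rfl⟩ := hg s
    rw [← map_nsmul, hker, rv_zero_iff]
    exact ⟨tv β z, by rw [map_nsmul]⟩
  have hcard : ℓ ∣ Nat.card S := by
    obtain ⟨s, hs⟩ := exists_ne (0 : S)
    have h1 : addOrderOf s = ℓ := addOrderOf_eq_prime (hℓS s) hs
    rw [← h1]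
    exact addOrderOf_dvd_natCard s
  let P : Subgroup (Equiv.Perm S) := V.map (act (ℓ := ℓ) S)
  have hP : IsPGroup ℓ P := by
    rintro ⟨_, v, hv, rfl⟩
    exact ⟨a, Subtype.ext (hVpow v hv)⟩
  have h0 : (0 : S) ∈ MulAction.fixedPoints P S := by
    rintro ⟨_, v, hv, rfl⟩
    show act (ℓ := ℓ) S v 0 = 0
    rw [act_apply, smul_zero]
  obtain ⟨b, hb, hb0⟩ := hP.exists_fixed_point_of_prime_dvd_card_of_fixed_point S hcard h0
  let W : Submodule (MonoidAlgebra ℤ_[ℓ] G) S :=
    { carrier := {s | ∀ v ∈ V, act (ℓ := ℓ) S v s = s}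
      zero_mem' := fun v _ => by rw [act_apply, smul_zero]
      add_mem' := fun {s t} hs ht v hv => by
        rw [act_apply, smul_add, ← act_apply, ← act_apply, hs v hv, ht v hv]
      smul_mem' := by
        intro c s hs
        induction c using MonoidAlgebra.induction_on with
        | of x =>
          intro v hv
          have h1 : x⁻¹ * v * x ∈ V := by
            have h2 := (inferInstance : V.Normal).conj_mem v hv x⁻¹
            rwa [inv_inv] at h2
          have h2 := hs _ h1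
          rw [act_apply] at h2 ⊢
          have h3 : MonoidAlgebra.of ℤ_[ℓ] G v • MonoidAlgebra.of ℤ_[ℓ] G x • s =
              MonoidAlgebra.of ℤ_[ℓ] G x • MonoidAlgebra.of ℤ_[ℓ] G (x⁻¹ * v * x) • s := by
            rw [smul_smul, smul_smul, ← map_mul, ← map_mul]
            congr 2
            group
          rw [h3, h2]
        | add c d hc hd =>
          intro v hv
          rw [add_smul, act_apply, smul_add, ← act_apply, ← act_apply, hc v hv, hd v hv]
        | smul r c hc =>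
          intro v hv
          have h1 : (r • c) • s = (algebraMap ℤ_[ℓ] (MonoidAlgebra ℤ_[ℓ] G) r) • (c • s) := by
            rw [Algebra.smul_def, mul_smul]
          rw [h1, act_apply, smul_smul, ← Algebra.commutes, mul_smul, ← act_apply, hc v hv] }
  have hW : W = ⊤ := by
    refine (eq_bot_or_eq_top W).resolve_left fun h => hb0 ?_
    have h1 : b ∈ W := fun v hv => hb ⟨_, v, hv, rfl⟩
    rw [h, Submodule.mem_bot] at h1
    exact h1.symm
  have huN : act (ℓ := ℓ) S u ^ N = 1 := by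
    rw [← map_pow]
    ext s
    have h1 : s ∈ W := by rw [hW]; trivial
    exact h1 _ (Subgroup.subset_normalClosure rfl)
  apply hone'
  rw [← orderOf_eq_one_iff]
  have h1 : orderOf (act (ℓ := ℓ) S u) ∣ N := orderOf_dvd_of_pow_eq_one huN
  have h2 : orderOf (act (ℓ := ℓ) S u) ∣ ℓ ^ a := orderOf_dvd_of_pow_eq_one hupow
  have h3 : Nat.Coprime N (ℓ ^ a) :=
    Nat.Coprime.pow_right _ ((hℓ.out.coprime_iff_not_dvd.2 hℓH).symm)
  exact Nat.eq_one_of_dvd_coprimes h3 h1 h2

end Pool.Agent.Run7.h879.DS
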