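import Pool.Agent.Run7.h879.DS.Mod

/-!
# Full submodules of direct sums, when homomorphisms lift
-/

set_option autoImplicit false

namespace Pool.Agent.Run7.h879.DS

open Module

variable (R : Type) [Ring R] (ℓ : ℕ)

/-- The homomorphisms from `Y` to the quotients of `X` by full submodules lift. -/
def Lift (Y X : Type) [AddCommGroup Y] [Module R Y] [AddCommGroup X] [Module R X] : Prop :=
  ∀ K : Submodule R X, Full R ℓ K → ∀ θ : Y →ₗ[R] (X ⧸ K), ∃ θ' : Y →ₗ[R] X, K.mkQ.comp θ' = θ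

variable {R ℓ} {X Y Y₁ Y₂ : Type} [AddCommGroup X] [Module R X] [AddCommGroup Y] [Module R Y]
  [AddCommGroup Y₁] [Module R Y₁] [AddCommGroup Y₂] [Module R Y₂]

theorem Lift.congr (h : Lift R ℓ Y X) (e : Y ≃ₗ[R] Y₁) : Lift R ℓ Y₁ X := by
  intro K hK θ
  obtain ⟨θ', hθ'⟩ := h K hK (θ.comp e.toLinearMap)
  refine ⟨θ'.comp e.symm.toLinearMap, ?_⟩
  apply LinearMap.ext
  intro y
  have h1 := LinearMap.congr_fun hθ' (e.symm y)
  simp only [LinearMap.comp_apply, LinearEquiv.coe_coe, LinearEquiv.apply_symm_apply] at h1 ⊢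
  exact h1

theorem Lift.prod (h₁ : Lift R ℓ Y₁ X) (h₂ : Lift R ℓ Y₂ X) : Lift R ℓ (Y₁ × Y₂) X := by
  intro K hK θ
  obtain ⟨a, ha⟩ := h₁ K hK (θ.comp (LinearMap.inl R Y₁ Y₂))
  obtain ⟨b, hb⟩ := h₂ K hK (θ.comp (LinearMap.inr R Y₁ Y₂))
  refine ⟨a.coprod b, ?_⟩
  apply LinearMap.ext
  rintro ⟨y, z⟩
  have h1 := LinearMap.congr_fun ha y
  have h2 := LinearMap.congr_fun hb z
  simp only [LinearMap.comp_apply, LinearMap.inl_apply, LinearMap.inr_apply] at h1 h2
  rw [LinearMap.comp_apply, LinearMap.coprod_apply, map_add, h1, h2, ← map_add]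
  congr 1
  simp

theorem Lift.of_subsingleton [Subsingleton Y] : Lift R ℓ Y X := by
  intro K _ θ
  refine ⟨0, ?_⟩
  apply LinearMap.ext
  intro y
  rw [Subsingleton.elim y 0, map_zero, map_zero]

theorem Lift.pi : ∀ (k : ℕ) (B : Fin k → Type) [∀ i, AddCommGroup (B i)] [∀ i, Module R (B i)],
    (∀ i, Lift R ℓ (B i) X) → Lift R ℓ (∀ i, B i) X := by
  intro k
  induction k with
  | zero => intro B _ _ _; exact Lift.of_subsingleton
  | succ k ih =>
    intro B _ _ h
    have h1 : Lift R ℓ (B 0 × ∀ i : Fin k, B i.succ) X := (h 0).prod (ih _ fun i => h i.succ)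
    exact h1.congr (Fin.consLinearEquiv R B)

/-- **Two summands, when the homomorphisms lift.** -/
theorem UL.prod' (hX : UL R ℓ X) (hY : UL R ℓ Y) (hL : Lift R ℓ Y X) : UL R ℓ (X × Y) := by
  classical
  rintro N ⟨k, hk⟩
  let NX : Submodule R X := N.map (LinearMap.fst R X Y)
  let NY : Submodule R Y := N.map (LinearMap.snd R X Y)
  have hNX : Full R ℓ NX := ⟨k, fun x => ⟨(ℓ ^ k • x, 0), by
    have h := hk (x, 0)
    rwa [Prod.smul_mk, smul_zero] at h, rfl⟩⟩
  have hNY : Full R ℓ NY := ⟨k, fun y => ⟨(0, ℓ ^ k • y), by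
    have h := hk (0, y)
    rwa [Prod.smul_mk, smul_zero] at h, rfl⟩⟩
  obtain ⟨eX⟩ := hX NX hNX
  obtain ⟨eY⟩ := hY NY hNY
  let LX : Submodule R NX := (N.comap (LinearMap.inl R X Y)).comap NX.subtype
  have hLX : ∀ x : NX, x ∈ LX ↔ ((x : X), (0 : Y)) ∈ N := fun x => Iff.rfl
  have hLXf : ∀ x : NX, (ℓ ^ k) • x ∈ LX := by
    intro x
    rw [hLX]
    have h := hk ((x : X), 0)
    rwa [Prod.smul_mk, smul_zero] at h
  let φ : N →ₗ[R] (NX ⧸ LX) := LX.mkQ.comp
    ((LinearMap.fst R X Y).restrict (p := N) (q := NX) (fun n hn => ⟨n, hn, rfl⟩))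
  let ψ : N →ₗ[R] NY := (LinearMap.snd R X Y).restrict (p := N) (q := NY)
    (fun n hn => ⟨n, hn, rfl⟩)
  have hψ : Function.Surjective ψ := by
    rintro ⟨y, n, hn, hny⟩
    exact ⟨⟨n, hn⟩, Subtype.ext hny⟩
  have hker : LinearMap.ker ψ ≤ LinearMap.ker φ := by
    rintro ⟨⟨x, y⟩, hn⟩ hker
    rw [LinearMap.mem_ker] at hker ⊢
    have hy : y = 0 := congrArg Subtype.val hker
    subst hy
    show LX.mkQ _ = 0
    rw [Submodule.mkQ_apply, Submodule.Quotient.mk_eq_zero]
    exact hn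
  let θ : NY →ₗ[R] (NX ⧸ LX) := ((LinearMap.ker ψ).liftQ φ hker).comp
    (ψ.quotKerEquivOfSurjective hψ).symm.toLinearMap
  have hθ : ∀ n : N, θ (ψ n) = φ n := by
    intro n
    have h1 : ψ n = (ψ.quotKerEquivOfSurjective hψ) ((LinearMap.ker ψ).mkQ n) := rfl
    show ((LinearMap.ker ψ).liftQ φ hker) ((ψ.quotKerEquivOfSurjective hψ).symm (ψ n)) = φ n
    rw [h1, LinearEquiv.symm_apply_apply]
    exact Submodule.liftQ_apply _ _ _
  let K : Submodule R X := LX.map eX.toLinearMap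
  have hKf : Full R ℓ K := ⟨k, fun x => ⟨(ℓ ^ k) • eX.symm x, hLXf _, by
    show eX ((ℓ ^ k) • eX.symm x) = _
    rw [map_nsmul, LinearEquiv.apply_symm_apply]⟩⟩
  let q : (NX ⧸ LX) ≃ₗ[R] (X ⧸ K) := Submodule.Quotient.equiv LX K eX rfl
  obtain ⟨θ₂, hθ₂⟩ := hL K hKf ((q.toLinearMap.comp θ).comp eY.symm.toLinearMap)
  let θ' : NY →ₗ[R] NX := (eX.symm.toLinearMap.comp θ₂).comp eY.toLinearMap
  have hθ' : ∀ y : NY, LX.mkQ (θ' y) = θ y := by
    intro y
    apply q.injective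
    have h1 := LinearMap.congr_fun hθ₂ (eY y)
    simp only [LinearMap.comp_apply, LinearEquiv.coe_coe, LinearEquiv.symm_apply_apply] at h1
    rw [← h1]
    show Submodule.Quotient.equiv LX K eX rfl (LX.mkQ (eX.symm (θ₂ (eY y)))) = K.mkQ (θ₂ (eY y))
    have h2 : Submodule.Quotient.equiv LX K eX rfl (LX.mkQ (eX.symm (θ₂ (eY y)))) =
        K.mkQ (eX (eX.symm (θ₂ (eY y)))) := rfl
    rw [h2, LinearEquiv.apply_symm_apply]
  have hmem : ∀ n : N, (⟨n.1.1, n, n.2, rfl⟩ : NX) - θ' (ψ n) ∈ LX := by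
    intro n
    rw [← Submodule.Quotient.mk_eq_zero, ← Submodule.mkQ_apply, map_sub, hθ', hθ, sub_eq_zero]
    rfl
  let τ : N →ₗ[R] LX × NY :=
    { toFun := fun n => (⟨(⟨n.1.1, n, n.2, rfl⟩ : NX) - θ' (ψ n), hmem n⟩, ψ n)
      map_add' := fun a b => by
        apply Prod.ext
        · apply Subtype.ext
          apply Subtype.ext
          show (a.1.1 + b.1.1) - ((θ' (ψ (a + b)) : NX) : X) =
            (a.1.1 - ((θ' (ψ a) : NX) : X)) + (b.1.1 - ((θ' (ψ b) : NX) : X))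
          rw [map_add, map_add, Submodule.coe_add]
          exact add_sub_add_comm _ _ _ _
        · exact map_add ψ a b
      map_smul' := fun c a => by
        apply Prod.ext
        · apply Subtype.ext
          apply Subtype.ext
          show c • a.1.1 - ((θ' (ψ (c • a)) : NX) : X) = c • (a.1.1 - ((θ' (ψ a) : NX) : X))
          rw [map_smul, map_smul, Submodule.coe_smul, smul_sub]
        · exact map_smul ψ c a }
  have hτ : Function.Bijective τ := by
    constructor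
    · rw [← LinearMap.ker_eq_bot, LinearMap.ker_eq_bot']
      rintro ⟨⟨x, y⟩, hn⟩ h
      have h1 : ψ ⟨(x, y), hn⟩ = 0 := congrArg Prod.snd h
      have hy : y = 0 := congrArg Subtype.val h1
      have h2 : (x : X) - ((θ' (ψ ⟨(x, y), hn⟩) : NX) : X) = 0 :=
        congrArg (fun z : LX × NY => (((z.1 : LX) : NX) : X)) h
      rw [h1, map_zero, Submodule.coe_zero, sub_zero] at h2
      subst h2
      subst hy
      rfl
    · rintro ⟨⟨x, hx⟩, y⟩
      obtain ⟨n₀, hn₀⟩ := hψ y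
      have h1 := hmem n₀
      rw [hLX, hn₀] at h1
      rw [hLX] at hx
      have hy : n₀.1.2 = (y : Y) := congrArg Subtype.val hn₀
      have h3 : ((x : X) + ((θ' y : NX) : X), (y : Y)) ∈ N := by
        have h4 := N.add_mem hx (N.sub_mem n₀.2 h1)
        have h5 : ((x : X), (0 : Y)) + ((n₀ : X × Y) -
            ((((⟨n₀.1.1, n₀, n₀.2, rfl⟩ : NX) - θ' y : NX) : X), (0 : Y))) =
            ((x : X) + ((θ' y : NX) : X), (y : Y)) := by
          apply Prod.ext
          · show (x : X) + (n₀.1.1 - (n₀.1.1 - ((θ' y : NX) : X))) = _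
            rw [sub_sub_cancel]
          · show (0 : Y) + (n₀.1.2 - 0) = _
            rw [hy, sub_zero, zero_add]
        rwa [h5] at h4
      refine ⟨⟨_, h3⟩, ?_⟩
      have h6 : ψ ⟨_, h3⟩ = y := Subtype.ext rfl
      apply Prod.ext
      · apply Subtype.ext
        apply Subtype.ext
        show ((x : X) + ((θ' y : NX) : X)) - ((θ' (ψ ⟨_, h3⟩) : NX) : X) = (x : X)
        rw [h6, add_sub_cancel_right]
      · exact h6
  obtain ⟨eK⟩ := hX K hKf
  let eL : LX ≃ₗ[R] K := eX.submoduleMap LX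
  exact ⟨(LinearEquiv.ofBijective τ hτ).trans ((eL.trans eK).prodCongr eY)⟩

/-- **Several summands, when the homomorphisms lift.** -/
theorem UL.pi' {A : Type} [AddCommGroup A] [Module R A] (hA : UL R ℓ A) :
    ∀ (k : ℕ) (B : Fin k → Type) [∀ i, AddCommGroup (B i)] [∀ i, Module R (B i)],
    (∀ i, UL R ℓ (B i)) → (∀ i, Lift R ℓ A (B i)) → (∀ i j, Lift R ℓ (B i) (B j)) →
    UL R ℓ (A × ∀ i, B i) := by
  intro k
  induction k with
  | zero =>
    intro B _ _ _ _ _
    exact hA.congr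
      { toFun := fun a => (a, 0)
        invFun := fun p => p.1
        map_add' := fun a b => by simp
        map_smul' := fun c a => by simp
        left_inv := fun a => rfl
        right_inv := fun p => Prod.ext rfl (Subsingleton.elim _ _) }
  | succ k ih =>
    intro B _ _ hB hL hL'
    have h1 : UL R ℓ (A × ∀ i : Fin k, B i.succ) :=
      ih _ (fun i => hB _) (fun i => hL _) fun i j => hL' _ _
    have h2 : UL R ℓ (B 0 × (A × ∀ i : Fin k, B i.succ)) :=
      (hB 0).prod' h1 ((hL 0).prod (Lift.pi k _ fun i => hL' i.succ 0))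
    let e : (B 0 × (A × ∀ i : Fin k, B i.succ)) ≃ₗ[R] (A × (B 0 × ∀ i : Fin k, B i.succ)) :=
      { toFun := fun p => (p.2.1, (p.1, p.2.2))
        invFun := fun p => (p.2.1, (p.1, p.2.2))
        map_add' := fun a b => rfl
        map_smul' := fun c a => rfl
        left_inv := fun a => rfl
        right_inv := fun p => rfl }
    exact h2.congr (e.trans ((LinearEquiv.refl R A).prodCongr (Fin.consLinearEquiv R B)))

/-- Modules without common simple quotient. -/
theorem Lift.of_sep [IsNoetherian R X] (hX : UL R ℓ X) (hs : Sep R Y X) : Lift R ℓ Y X := by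
  classical
  rintro K ⟨k, hk⟩ θ
  by_cases h0 : LinearMap.range θ = ⊥
  · refine ⟨0, ?_⟩
    rw [LinearMap.range_eq_bot.1 h0, LinearMap.comp_zero]
  exfalso
  let I : Submodule R X := (LinearMap.range θ).comap K.mkQ
  have hI : Full R ℓ I := ⟨k, fun x => by
    show K.mkQ ((ℓ ^ k) • x) ∈ LinearMap.range θ
    have h1 : K.mkQ ((ℓ ^ k) • x) = 0 := by
      rw [Submodule.mkQ_apply, Submodule.Quotient.mk_eq_zero]
      exact hk x
    rw [h1]
    exact Submodule.zero_mem _⟩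
  obtain ⟨e⟩ := hX I hI
  let K' : Submodule R I := K.comap I.subtype
  have hK' : K' ≠ ⊤ := by
    intro h
    apply h0
    rw [eq_bot_iff]
    rintro _ ⟨y, rfl⟩
    obtain ⟨x, hx⟩ := K.mkQ_surjective (θ y)
    have hxI : x ∈ I := ⟨y, hx.symm⟩
    have h1 : (⟨x, hxI⟩ : I) ∈ K' := by rw [h]; trivial
    rw [Submodule.mem_bot, ← hx, Submodule.mkQ_apply, Submodule.Quotient.mk_eq_zero]
    exact h1
  obtain ⟨C, hC, hKC⟩ := (eq_top_or_exists_le_coatom K').resolve_left hK'
  have hS : IsSimpleModule R (I ⧸ C) := isSimpleModule_iff_isCoatom.2 hC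
  let ψ : I →ₗ[R] LinearMap.range θ := K.mkQ.restrict (p := I) (q := LinearMap.range θ)
    (fun x hx => hx)
  have hψ : Function.Surjective ψ := by
    rintro ⟨_, y, rfl⟩
    obtain ⟨x, hx⟩ := K.mkQ_surjective (θ y)
    exact ⟨⟨x, y, hx.symm⟩, Subtype.ext hx⟩
  have hker : LinearMap.ker ψ ≤ LinearMap.ker C.mkQ := by
    intro x hx
    rw [Submodule.ker_mkQ]
    apply hKC
    rw [LinearMap.mem_ker] at hx
    have h1 : K.mkQ (x : X) = 0 := congrArg Subtype.val hx
    rw [Submodule.mkQ_apply, Submodule.Quotient.mk_eq_zero] at h1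
    exact h1
  let θ₂ : LinearMap.range θ →ₗ[R] (I ⧸ C) := ((LinearMap.ker ψ).liftQ C.mkQ hker).comp
    (ψ.quotKerEquivOfSurjective hψ).symm.toLinearMap
  have hθ₂ : Function.Surjective θ₂ := by
    intro s
    obtain ⟨x, rfl⟩ := C.mkQ_surjective s
    refine ⟨(ψ.quotKerEquivOfSurjective hψ) ((LinearMap.ker ψ).mkQ x), ?_⟩
    show ((LinearMap.ker ψ).liftQ C.mkQ hker) ((ψ.quotKerEquivOfSurjective hψ).symm
      ((ψ.quotKerEquivOfSurjective hψ) ((LinearMap.ker ψ).mkQ x))) = C.mkQ x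
    rw [LinearEquiv.symm_apply_apply]
    exact Submodule.liftQ_apply _ _ _
  exact hs (I ⧸ C) (θ₂.comp θ.rangeRestrict) (C.mkQ.comp e.symm.toLinearMap)
    (hθ₂.comp θ.surjective_rangeRestrict) (C.mkQ_surjective.comp e.symm.surjective)

end Pool.Agent.Run7.h879.DS
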