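import Pool.Agent.Run7.h879.DS.Ab
import Pool.Agent.Run7.h879.DS.Mod2

/-!
# Lifting of endomorphisms of a residually absolutely irreducible representation
-/

set_option autoImplicit false
set_option linter.unusedSectionVars false

namespace Pool.Agent.Run7.h879.DS

open Module Matrix

section chain

variable {K : Type} [Field K] {r : ℕ}

/-- A matrix which commutes with a nilpotent matrix with one Jordan block has an eigenvector in the
kernel of the latter. -/
theorem exists_eigen {N M : Matrix (Fin r) (Fin r) K} (hr : 0 < r) (hN : IsNilpotent N)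
    (hN' : N ^ (r - 1) ≠ 0) (hM : M * N = N * M) :
    ∃ (v : Fin r → K) (c : K), v ≠ 0 ∧ M.mulVec v = c • v := by
  classical
  -- `N ^ r = 0`
  have hNr : N ^ r = 0 := by
    have h1 : N.charpoly = Polynomial.X ^ r := by
      have h2 := Matrix.isNilpotent_charpoly_sub_pow_of_isNilpotent hN
      rw [isNilpotent_iff_eq_zero, sub_eq_zero] at h2
      rw [h2, Fintype.card_fin]
    have h3 := Matrix.aeval_self_charpoly N
    rwa [h1, map_pow, Polynomial.aeval_X] at h3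
  obtain ⟨w, hw⟩ : ∃ w, (N ^ (r - 1)).mulVec w ≠ 0 := by
    by_contra hcon
    push Not at hcon
    apply hN'
    ext i j
    have h1 := congrFun (hcon (Pi.single j 1)) i
    simpa using h1
  let b : Fin r → (Fin r → K) := fun i => (N ^ (i : ℕ)).mulVec w
  have hli : LinearIndependent K b := by
    rw [Fintype.linearIndependent_iff]
    intro c hc
    by_contra hne
    push Not at hne
    obtain ⟨i₀, hi₀, hmin⟩ : ∃ i₀ : Fin r, c i₀ ≠ 0 ∧ ∀ i, i < i₀ → c i = 0 := by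
      obtain ⟨i, hi⟩ := hne
      have hne' : (Finset.univ.filter fun i => c i ≠ 0).Nonempty := ⟨i, by simp [hi]⟩
      refine ⟨(Finset.univ.filter fun i => c i ≠ 0).min' hne', ?_, fun j hj => ?_⟩
      · have := Finset.min'_mem _ hne'
        simpa using this
      · by_contra hcj
        have := Finset.min'_le (Finset.univ.filter fun i => c i ≠ 0) j (by simp [hcj])
        exact absurd hj (not_lt.2 this)
    have h1 := congrArg (fun v => (N ^ (r - 1 - (i₀ : ℕ))).mulVec v) hc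
    simp only [Matrix.mulVec_sum, Matrix.mulVec_zero] at h1
    rw [Finset.sum_eq_single i₀] at h1
    · rw [Matrix.mulVec_smul] at h1
      have h2 : (N ^ (r - 1 - (i₀ : ℕ))).mulVec (b i₀) = (N ^ (r - 1)).mulVec w := by
        show (N ^ (r - 1 - (i₀ : ℕ))).mulVec ((N ^ (i₀ : ℕ)).mulVec w) = _
        rw [Matrix.mulVec_mulVec, ← pow_add]
        congr 2
        have := i₀.2
        omega
      rw [h2] at h1
      rcases smul_eq_zero.1 h1 with h | h
      · exact hi₀ h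
      · exact hw h
    · intro i _ hi
      rcases lt_or_gt_of_ne hi with h | h
      · rw [hmin i h, zero_smul, Matrix.mulVec_zero]
      · rw [Matrix.mulVec_smul]
        have h2 : (N ^ (r - 1 - (i₀ : ℕ))).mulVec (b i) = 0 := by
          show (N ^ (r - 1 - (i₀ : ℕ))).mulVec ((N ^ (i : ℕ)).mulVec w) = _
          rw [Matrix.mulVec_mulVec, ← pow_add]
          have h3 : r - 1 - (i₀ : ℕ) + (i : ℕ) = r + (r - 1 - (i₀ : ℕ) + (i : ℕ) - r) := by
            have h4 : (i₀ : ℕ) < i := h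
            have := i.2
            omega
          rw [h3, pow_add, hNr, zero_mul, Matrix.zero_mulVec]
        rw [h2, smul_zero]
    · intro h
      exact (h (Finset.mem_univ _)).elim
  have hne : Nonempty (Fin r) := ⟨⟨0, hr⟩⟩
  let B : Basis (Fin r) K (Fin r → K) := basisOfLinearIndependentOfCardEqFinrank hli (by
    rw [Fintype.card_fin, Module.finrank_fin_fun])
  have hB : ∀ i, B i = b i := fun i => by
    rw [coe_basisOfLinearIndependentOfCardEqFinrank]
  refine ⟨(N ^ (r - 1)).mulVec w, B.repr (M.mulVec w) ⟨0, hr⟩, hw, ?_⟩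
  have hcom : ∀ k : ℕ, M * N ^ k = N ^ k * M := fun k => by
    have : Commute M N := hM
    exact this.pow_right k
  rw [Matrix.mulVec_mulVec, hcom, ← Matrix.mulVec_mulVec]
  conv_lhs => rw [← B.sum_repr (M.mulVec w)]
  rw [Matrix.mulVec_sum, Finset.sum_eq_single ⟨0, hr⟩]
  · rw [Matrix.mulVec_smul, hB]
    show _ • (N ^ (r - 1)).mulVec ((N ^ 0).mulVec w) = _
    rw [pow_zero, Matrix.one_mulVec]
  · intro i _ hi
    rw [Matrix.mulVec_smul, hB]
    show _ • (N ^ (r - 1)).mulVec ((N ^ (i : ℕ)).mulVec w) = 0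
    have hi0 : 0 < (i : ℕ) := Nat.pos_of_ne_zero fun h => hi (Fin.ext h)
    rw [Matrix.mulVec_mulVec, ← pow_add]
    have h3 : r - 1 + (i : ℕ) = r + (r - 1 + (i : ℕ) - r) := by omega
    rw [h3, pow_add, hNr, zero_mul, Matrix.zero_mulVec, smul_zero]
  · intro h
    exact (h (Finset.mem_univ _)).elim

end chain

variable {G : Type} [Group G] {ℓ : ℕ} [hℓ : Fact ℓ.Prime] {n m : ℕ}

/-- The residual commutant consists of scalars. -/
def ResCom (ρ : G →* GL (Fin n) ℤ_[ℓ]) : Prop :=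
  ∀ M : Matrix (Fin n) (Fin n) (ZMod ℓ), (∀ g, M * bar ρ g = bar ρ g * M) → ∃ c : ZMod ℓ, M = c • 1

theorem resCom {ρ : G →* GL (Fin n) ℤ_[ℓ]} (hn : 0 < n) (hirr : ResIrr ρ) (u : G)
    (hu : IsNilpotent (bar ρ u - 1)) (hu' : (bar ρ u - 1) ^ (n - 1) ≠ 0) : ResCom ρ := by
  classical
  intro M hM
  obtain ⟨v, c, hv, hc⟩ := exists_eigen (M := M) hn hu hu' (by
    rw [mul_sub, sub_mul, hM, mul_one, one_mul])
  refine ⟨c, ?_⟩
  let U : Submodule (ZMod ℓ) (Fin n → ZMod ℓ) :=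
    { carrier := {x | M.mulVec x = c • x}
      zero_mem' := by
        show M.mulVec 0 = c • (0 : Fin n → ZMod ℓ)
        rw [Matrix.mulVec_zero, smul_zero]
      add_mem' := fun {x y} hx hy => by
        show M.mulVec (x + y) = c • (x + y)
        rw [Matrix.mulVec_add, smul_add]
        exact congrArg₂ _ hx hy
      smul_mem' := fun a x hx => by
        show M.mulVec (a • x) = c • (a • x)
        rw [Matrix.mulVec_smul, smul_comm c a x]
        exact congrArg _ hx }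
  have hU : U = ⊤ := by
    refine (hirr U ?_).resolve_left fun h => hv ?_
    · intro g x hx
      have hx' : M.mulVec x = c • x := hx
      show M.mulVec ((bar ρ g).mulVec x) = c • (bar ρ g).mulVec x
      rw [Matrix.mulVec_mulVec, hM, ← Matrix.mulVec_mulVec, hx', Matrix.mulVec_smul]
    · have h1 : v ∈ U := hc
      rw [h, Submodule.mem_bot] at h1
      exact h1
  ext i j
  have h1 : (Pi.single j 1 : Fin n → ZMod ℓ) ∈ U := by rw [hU]; trivial
  have h2 : M.mulVec (Pi.single j 1) = c • (Pi.single j 1 : Fin n → ZMod ℓ) := h1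
  have h3 := congrFun h2 i
  rw [Matrix.mulVec_single_one] at h3
  rw [Matrix.smul_apply, Matrix.one_apply]
  simpa [Pi.single_apply] using h3

/-- matrices which are zero modulo `ℓ` -/
theorem map_zero_iff {A : Matrix (Fin m) (Fin n) ℤ_[ℓ]}
    (h : A.map (PadicInt.toZMod (p := ℓ)) = 0) : ∃ B : Matrix (Fin m) (Fin n) ℤ_[ℓ],
      A = (ℓ : ℤ_[ℓ]) • B := by
  choose B hB using fun i j => toZMod_zero_iff.1 (congrFun (congrFun h i) j)
  exact ⟨Matrix.of B, by ext i j; exact hB i j⟩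

theorem com_lift {ρ : G →* GL (Fin n) ℤ_[ℓ]} (hc : ResCom ρ) : ∀ (j : ℕ)
    (Y : Matrix (Fin n) (Fin n) ℤ_[ℓ]), (∀ g, ∃ Z : Matrix (Fin n) (Fin n) ℤ_[ℓ],
      Y * (ρ g : Matrix (Fin n) (Fin n) ℤ_[ℓ]) - (ρ g : Matrix (Fin n) (Fin n) ℤ_[ℓ]) * Y =
        ((ℓ : ℤ_[ℓ]) ^ j) • Z) →
    ∃ (c : ℤ_[ℓ]) (Z : Matrix (Fin n) (Fin n) ℤ_[ℓ]), Y = c • 1 + ((ℓ : ℤ_[ℓ]) ^ j) • Z := by
  intro j
  induction j with
  | zero => intro Y _; exact ⟨0, Y, by rw [zero_smul, pow_zero, one_smul, zero_add]⟩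
  | succ j ih =>
    intro Y hY
    let φ := PadicInt.toZMod (p := ℓ)
    have hφ : ∀ A B : Matrix (Fin n) (Fin n) ℤ_[ℓ], (A * B).map φ = A.map φ * B.map φ :=
      fun A B => Matrix.map_mul
    have hℓ0 : φ (ℓ : ℤ_[ℓ]) = 0 := by rw [map_natCast, ZMod.natCast_self]
    obtain ⟨c₁, hc₁⟩ := hc (Y.map φ) (fun g => by
      obtain ⟨Z, hZ⟩ := hY g
      have h1 := congrArg (fun A => RingHom.mapMatrix φ A) hZ
      simp only [map_sub, map_mul, RingHom.mapMatrix_apply] at h1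
      have h2 : (((ℓ : ℤ_[ℓ]) ^ (j + 1)) • Z).map φ = 0 := by
        ext a b
        rw [Matrix.map_apply, Matrix.smul_apply, smul_eq_mul, map_mul, map_pow, hℓ0, pow_succ,
          mul_zero, zero_mul]
        rfl
      rw [h2, sub_eq_zero] at h1
      exact h1)
    obtain ⟨c₀, rfl⟩ := zmod_surj c₁
    have h2 : (Y - c₀ • (1 : Matrix (Fin n) (Fin n) ℤ_[ℓ])).map φ = 0 := by
      ext a b
      have h3 : φ (Y a b) = φ c₀ * (1 : Matrix (Fin n) (Fin n) (ZMod ℓ)) a b :=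
        congrFun (congrFun hc₁ a) b
      show φ (Y a b - c₀ * (1 : Matrix (Fin n) (Fin n) ℤ_[ℓ]) a b) = 0
      rw [map_sub, h3, map_mul, Matrix.one_apply, Matrix.one_apply]
      split_ifs
      · rw [map_one]; exact sub_self _
      · rw [map_zero]; exact sub_self _
    obtain ⟨Y', hY'⟩ := map_zero_iff h2
    have hℓne : (ℓ : ℤ_[ℓ]) ≠ 0 := Nat.cast_ne_zero.2 hℓ.out.ne_zero
    obtain ⟨c, Z, hcZ⟩ := ih Y' (fun g => by
      obtain ⟨Z, hZ⟩ := hY g
      refine ⟨Z, ?_⟩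
      have h4 : Y = c₀ • 1 + (ℓ : ℤ_[ℓ]) • Y' := by rw [← hY']; abel
      have h5 : Y * (ρ g : Matrix (Fin n) (Fin n) ℤ_[ℓ]) -
          (ρ g : Matrix (Fin n) (Fin n) ℤ_[ℓ]) * Y = (ℓ : ℤ_[ℓ]) • (Y' *
            (ρ g : Matrix (Fin n) (Fin n) ℤ_[ℓ]) - (ρ g : Matrix (Fin n) (Fin n) ℤ_[ℓ]) * Y') := by
        rw [h4, add_mul, mul_add, Matrix.smul_mul, Matrix.smul_mul, Matrix.mul_smul,
          Matrix.mul_smul, one_mul, mul_one, smul_sub, add_sub_add_left_eq_sub]
      rw [h5, pow_succ', mul_smul] at hZ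
      ext a b
      have h6 := congrFun (congrFun hZ a) b
      rw [Matrix.smul_apply, Matrix.smul_apply, smul_eq_mul, smul_eq_mul] at h6
      exact mul_left_cancel₀ hℓne h6)
    refine ⟨c₀ + (ℓ : ℤ_[ℓ]) * c, Z, ?_⟩
    have h4 : Y = c₀ • 1 + (ℓ : ℤ_[ℓ]) • Y' := by rw [← hY']; abel
    rw [h4, hcZ, smul_add, smul_smul, smul_smul, ← add_assoc, ← add_smul, pow_succ']

/-- **Full submodules.** -/
theorem full_eq {ρ : G →* GL (Fin n) ℤ_[ℓ]} (hirr : ResIrr ρ)
    (K : Submodule (MonoidAlgebra ℤ_[ℓ] G) (Lt ρ)) (hK : Full (MonoidAlgebra ℤ_[ℓ] G) ℓ K) :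
    ∃ j : ℕ, ∀ x : Lt ρ, x ∈ K ↔ ∃ y : Lt ρ, x = ((ℓ : ℤ_[ℓ]) ^ j) • y := by
  classical
  obtain ⟨k, hk⟩ := hK
  induction k generalizing K with
  | zero =>
    refine ⟨0, fun x => ⟨fun _ => ⟨x, by rw [pow_zero, one_smul]⟩, fun _ => ?_⟩⟩
    have h1 := hk x
    rwa [pow_zero, one_smul] at h1
  | succ k ih =>
    -- the image of `K` modulo `ℓ`
    let U : Submodule (ZMod ℓ) (Fin n → ZMod ℓ) :=
      { carrier := {u | ∃ y ∈ K, rv (tv ρ y) = u}
        zero_mem' := ⟨0, K.zero_mem, by rw [map_zero]; funext i; exact map_zero _⟩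
        add_mem' := by
          rintro _ _ ⟨y, hy, rfl⟩ ⟨z, hz, rfl⟩
          exact ⟨y + z, K.add_mem hy hz, by rw [map_add, rv_add]⟩
        smul_mem' := by
          rintro c _ ⟨y, hy, rfl⟩
          obtain ⟨c', rfl⟩ := zmod_surj c
          refine ⟨c' • y, ?_, ?_⟩
          · have h1 : c' • y = (algebraMap ℤ_[ℓ] (MonoidAlgebra ℤ_[ℓ] G) c') • y :=
              (algebraMap_smul _ _ _).symm
            rw [h1]
            exact K.smul_mem _ hy
          · rw [map_smul]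
            funext i
            exact map_mul _ _ _ }
    have hU : U = ⊥ ∨ U = ⊤ := hirr U (by
      rintro g' _ ⟨y, hy, rfl⟩
      refine ⟨MonoidAlgebra.single g' (1 : ℤ_[ℓ]) • y, K.smul_mem _ hy, ?_⟩
      rw [gs, rv_mulVec])
    rcases hU with hU | hU
    · -- `K ⊆ ℓ M`
      let K₁ : Submodule (MonoidAlgebra ℤ_[ℓ] G) (Lt ρ) :=
        K.comap ((ℓ : ℕ) • (LinearMap.id : Lt ρ →ₗ[MonoidAlgebra ℤ_[ℓ] G] Lt ρ))
      have hK₁ : ∀ x, x ∈ K₁ ↔ ℓ • x ∈ K := fun x => Iff.rfl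
      obtain ⟨j, hj⟩ := ih K₁ (fun x => by
        rw [hK₁, smul_smul, ← pow_succ']
        exact hk x)
      refine ⟨j + 1, fun x => ⟨fun hx => ?_, ?_⟩⟩
      · have h1 : rv (tv ρ x) ∈ U := ⟨x, hx, rfl⟩
        rw [hU, Submodule.mem_bot] at h1
        obtain ⟨z, hz⟩ := rv_zero_iff.1 h1
        have h2 : x = ℓ • (tv ρ).symm z := by
          apply (tv ρ).injective
          rw [map_nsmul, LinearEquiv.apply_symm_apply]
          exact hz
        have h3 : (tv ρ).symm z ∈ K₁ := by rw [hK₁, ← h2]; exact hx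
        obtain ⟨y, hy⟩ := (hj _).1 h3
        refine ⟨y, ?_⟩
        rw [h2, hy, pow_succ', mul_smul, Nat.cast_smul_eq_nsmul]
      · rintro ⟨y, rfl⟩
        have h3 : ((ℓ : ℤ_[ℓ]) ^ j) • y ∈ K₁ := (hj _).2 ⟨y, rfl⟩
        rw [hK₁] at h3
        rwa [pow_succ', mul_smul, Nat.cast_smul_eq_nsmul]
    · -- `K = M`
      refine ⟨0, fun x => ⟨fun _ => ⟨x, by rw [pow_zero, one_smul]⟩, fun _ => ?_⟩⟩
      have h3 : (⊤ : Submodule ℤ_[ℓ] (Lt ρ)) ≤ K.restrictScalars ℤ_[ℓ] := by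
        refine Submodule.le_of_le_smul_of_le_jacobson_bot (I := Ideal.span {(ℓ : ℤ_[ℓ])})
          Module.Finite.fg_top ?_ ?_
        · rw [IsLocalRing.jacobson_eq_maximalIdeal _ bot_ne_top, PadicInt.maximalIdeal_eq_span_p]
        · intro z _
          have h4 : rv (tv ρ z) ∈ U := by rw [hU]; trivial
          obtain ⟨y, hy, hyz⟩ := h4
          have h5 : rv (tv ρ (z - y)) = 0 := by rw [map_sub, rv_sub, hyz, sub_self]
          obtain ⟨t, ht⟩ := rv_zero_iff.1 h5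
          have h6 : z = y + (ℓ : ℤ_[ℓ]) • (tv ρ).symm t := by
            apply (tv ρ).injective
            rw [map_add, map_smul, LinearEquiv.apply_symm_apply, Nat.cast_smul_eq_nsmul, ← ht,
              map_sub, add_sub_cancel]
          rw [h6]
          exact Submodule.add_mem_sup hy
            (Submodule.smul_mem_smul (Ideal.mem_span_singleton_self _) trivial)
      exact h3 (Submodule.mem_top : x ∈ ⊤)

/-- **The endomorphisms of the quotients lift.** -/
theorem lift_self {ρ : G →* GL (Fin n) ℤ_[ℓ]} (hirr : ResIrr ρ) (hc : ResCom ρ) :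
    Lift (MonoidAlgebra ℤ_[ℓ] G) ℓ (Lt ρ) (Lt ρ) := by
  classical
  intro K hK θ
  obtain ⟨j, hj⟩ := full_eq hirr K hK
  -- a matrix which lifts `θ`
  choose y hy using fun i : Fin n => K.mkQ_surjective (θ ((tv ρ).symm (Pi.single i 1)))
  let Y : Matrix (Fin n) (Fin n) ℤ_[ℓ] := Matrix.of fun a b => tv ρ (y b) a
  have hY : ∀ x : Lt ρ, K.mkQ ((tv ρ).symm (Y.mulVec (tv ρ x))) = θ x := by
    intro x
    let g' : (Fin n → ℤ_[ℓ]) →ₗ[ℤ_[ℓ]] (Lt ρ ⧸ K) :=
      (K.mkQ.restrictScalars ℤ_[ℓ]) ∘ₗ (tv ρ).symm.toLinearMap ∘ₗ Y.mulVecLin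
    let f' : (Fin n → ℤ_[ℓ]) →ₗ[ℤ_[ℓ]] (Lt ρ ⧸ K) :=
      (θ.restrictScalars ℤ_[ℓ]) ∘ₗ (tv ρ).symm.toLinearMap
    have h1 : g' = f' := by
      apply LinearMap.pi_ext'
      intro i
      apply LinearMap.ext_ring
      show K.mkQ ((tv ρ).symm (Y.mulVec (Pi.single i 1))) = θ ((tv ρ).symm (Pi.single i 1))
      rw [← hy]
      congr 1
      apply (tv ρ).injective
      rw [LinearEquiv.apply_symm_apply, Matrix.mulVec_single_one]
      rfl
    have h2 := LinearMap.congr_fun h1 (tv ρ x)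
    have h3 : f' (tv ρ x) = θ x := by
      show θ ((tv ρ).symm (tv ρ x)) = θ x
      rw [LinearEquiv.symm_apply_apply]
    rw [h3] at h2
    exact h2
  have hcom : ∀ g, ∃ Z : Matrix (Fin n) (Fin n) ℤ_[ℓ],
      Y * (ρ g : Matrix (Fin n) (Fin n) ℤ_[ℓ]) - (ρ g : Matrix (Fin n) (Fin n) ℤ_[ℓ]) * Y =
        ((ℓ : ℤ_[ℓ]) ^ j) • Z := by
    intro g
    have h1 : ∀ x : Lt ρ, (tv ρ).symm ((Y * (ρ g : Matrix (Fin n) (Fin n) ℤ_[ℓ]) -
        (ρ g : Matrix (Fin n) (Fin n) ℤ_[ℓ]) * Y).mulVec (tv ρ x)) ∈ K := by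
      intro x
      rw [Matrix.sub_mulVec, map_sub, ← Submodule.Quotient.mk_eq_zero, ← Submodule.mkQ_apply,
        map_sub, sub_eq_zero, ← Matrix.mulVec_mulVec, ← Matrix.mulVec_mulVec, ← gs, hY, map_smul,
        ← hY x, ← map_smul]
      congr 1
      apply (tv ρ).injective
      rw [gs, LinearEquiv.apply_symm_apply, LinearEquiv.apply_symm_apply]
    choose z hz using fun b : Fin n => (hj _).1 (h1 ((tv ρ).symm (Pi.single b 1)))
    refine ⟨Matrix.of fun a b => tv ρ (z b) a, ?_⟩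
    ext a b
    have h2 := congrArg (fun v => tv ρ v a) (hz b)
    simp only [LinearEquiv.apply_symm_apply, map_smul, Pi.smul_apply] at h2
    rw [Matrix.mulVec_single_one] at h2
    rw [Matrix.smul_apply]
    exact h2
  obtain ⟨c, Z, hcZ⟩ := com_lift hc j Y hcom
  refine ⟨hom (c • (1 : Matrix (Fin n) (Fin n) ℤ_[ℓ])) (fun g => by
    rw [Matrix.smul_mul, Matrix.mul_smul, one_mul, mul_one]), ?_⟩
  apply LinearMap.ext
  intro x
  rw [LinearMap.comp_apply, ← hY x, ← sub_eq_zero, ← map_sub, Submodule.mkQ_apply,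
    Submodule.Quotient.mk_eq_zero, hj]
  refine ⟨-(tv ρ).symm (Z.mulVec (tv ρ x)), ?_⟩
  apply (tv ρ).injective
  rw [map_sub, hom_apply, LinearEquiv.apply_symm_apply, hcZ, Matrix.add_mulVec, Matrix.smul_mulVec,
    map_smul, map_neg, LinearEquiv.apply_symm_apply, sub_add_cancel_left, smul_neg,
    Matrix.smul_mulVec]

end Pool.Agent.Run7.h879.DS
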