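import Pool.Agent.Run7.h879.DS.Mod

/-!
# Integral representations as modules
-/

set_option autoImplicit false
set_option linter.unusedSectionVars false

namespace Pool.Agent.Run7.h879.DS

open Module Matrix

variable {G : Type} [Group G] {ℓ : ℕ} [hℓ : Fact ℓ.Prime] {n m : ℕ}

/-- The representation on `ℤ_ℓ^n`. -/
noncomputable def rep (ρ : G →* GL (Fin n) ℤ_[ℓ]) : Representation ℤ_[ℓ] G (Fin n → ℤ_[ℓ]) where
  toFun g := Matrix.mulVecLin (ρ g : Matrix (Fin n) (Fin n) ℤ_[ℓ])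
  map_one' := by
    rw [map_one, Units.val_one, Matrix.mulVecLin_one]
    rfl
  map_mul' g h := by
    rw [map_mul, Units.val_mul, Matrix.mulVecLin_mul]
    rfl

/-- `ℤ_ℓ^n` as a module over the group ring. -/
abbrev Lt (ρ : G →* GL (Fin n) ℤ_[ℓ]) : Type := (rep ρ).asModule

/-- The coordinates. -/
noncomputable def tv (ρ : G →* GL (Fin n) ℤ_[ℓ]) : Lt ρ ≃ₗ[ℤ_[ℓ]] (Fin n → ℤ_[ℓ]) :=
  (rep ρ).asModuleEquiv

theorem gs (ρ : G →* GL (Fin n) ℤ_[ℓ]) (g : G) (x : Lt ρ) :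
    tv ρ ((MonoidAlgebra.single g (1 : ℤ_[ℓ])) • x) =
      (ρ g : Matrix (Fin n) (Fin n) ℤ_[ℓ]).mulVec (tv ρ x) := by
  have h := Representation.asModuleEquiv_symm_map_rho (rep ρ) g (tv ρ x)
  have h2 : (rep ρ).asModuleEquiv.symm (tv ρ x) = x := (tv ρ).symm_apply_apply x
  rw [h2] at h
  have h3 := congrArg (tv ρ) h
  have h4 : tv ρ ((rep ρ).asModuleEquiv.symm ((rep ρ) g (tv ρ x))) = (rep ρ) g (tv ρ x) :=
    (tv ρ).apply_symm_apply _
  rw [h4] at h3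
  exact h3.symm

/-- The homomorphism of modules given by an equivariant matrix. -/
noncomputable def hom {ρ : G →* GL (Fin n) ℤ_[ℓ]} {ρ' : G →* GL (Fin m) ℤ_[ℓ]}
    (C : Matrix (Fin m) (Fin n) ℤ_[ℓ])
    (hC : ∀ g, C * (ρ g : Matrix (Fin n) (Fin n) ℤ_[ℓ]) =
      (ρ' g : Matrix (Fin m) (Fin m) ℤ_[ℓ]) * C) :
    Lt ρ →ₗ[MonoidAlgebra ℤ_[ℓ] G] Lt ρ' :=
  MonoidAlgebra.equivariantOfLinearOfComm
    ((tv ρ').symm.toLinearMap ∘ₗ C.mulVecLin ∘ₗ (tv ρ).toLinearMap) (fun g v => by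
      apply (tv ρ').injective
      rw [gs]
      simp only [LinearMap.comp_apply, LinearEquiv.coe_coe, LinearEquiv.apply_symm_apply,
        Matrix.mulVecLin_apply]
      rw [gs, Matrix.mulVec_mulVec, Matrix.mulVec_mulVec, hC])

theorem hom_apply {ρ : G →* GL (Fin n) ℤ_[ℓ]} {ρ' : G →* GL (Fin m) ℤ_[ℓ]}
    (C : Matrix (Fin m) (Fin n) ℤ_[ℓ])
    (hC : ∀ g, C * (ρ g : Matrix (Fin n) (Fin n) ℤ_[ℓ]) =
      (ρ' g : Matrix (Fin m) (Fin m) ℤ_[ℓ]) * C) (x : Lt ρ) :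
    tv ρ' (hom C hC x) = C.mulVec (tv ρ x) := by
  unfold hom
  rw [MonoidAlgebra.equivariantOfLinearOfComm_apply]
  simp only [LinearMap.comp_apply, LinearEquiv.coe_coe, LinearEquiv.apply_symm_apply,
    Matrix.mulVecLin_apply]

/-- Isomorphic modules have conjugate representations. -/
theorem gl_of_equiv {ρ ρ' : G →* GL (Fin n) ℤ_[ℓ]}
    (e : Lt ρ ≃ₗ[MonoidAlgebra ℤ_[ℓ] G] Lt ρ') :
    ∃ A : GL (Fin n) ℤ_[ℓ], ∀ g, ρ' g = A * ρ g * A⁻¹ := by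
  classical
  let f : (Fin n → ℤ_[ℓ]) ≃ₗ[ℤ_[ℓ]] (Fin n → ℤ_[ℓ]) :=
    ((tv ρ).symm.trans (e.restrictScalars ℤ_[ℓ])).trans (tv ρ')
  let A : Matrix (Fin n) (Fin n) ℤ_[ℓ] := LinearMap.toMatrix' f.toLinearMap
  let A' : Matrix (Fin n) (Fin n) ℤ_[ℓ] := LinearMap.toMatrix' f.symm.toLinearMap
  have hA : ∀ x, A.mulVec x = f x := fun x => by
    have h := LinearMap.toMatrix'_mulVec f.toLinearMap x
    exact h
  have hA' : ∀ x, A'.mulVec x = f.symm x := fun x => by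
    have h := LinearMap.toMatrix'_mulVec f.symm.toLinearMap x
    exact h
  have ext : ∀ M N : Matrix (Fin n) (Fin n) ℤ_[ℓ], (∀ x, M.mulVec x = N.mulVec x) → M = N := by
    intro M N h
    ext i j
    have h1 := congrFun (h (Pi.single j 1)) i
    simpa using h1
  have h1 : A * A' = 1 := ext _ _ fun x => by
    rw [← Matrix.mulVec_mulVec, hA', hA, LinearEquiv.apply_symm_apply, Matrix.one_mulVec]
  have h2 : A' * A = 1 := ext _ _ fun x => by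
    rw [← Matrix.mulVec_mulVec, hA, hA', LinearEquiv.symm_apply_apply, Matrix.one_mulVec]
  have h3 : ∀ g, A * (ρ g : Matrix (Fin n) (Fin n) ℤ_[ℓ]) =
      (ρ' g : Matrix (Fin n) (Fin n) ℤ_[ℓ]) * A := fun g => ext _ _ fun x => by
    rw [← Matrix.mulVec_mulVec, ← Matrix.mulVec_mulVec, hA, hA]
    have h4 := gs ρ g ((tv ρ).symm x)
    rw [LinearEquiv.apply_symm_apply] at h4
    have h5 : f ((ρ g : Matrix (Fin n) (Fin n) ℤ_[ℓ]).mulVec x) =
        tv ρ' (e (MonoidAlgebra.single g (1 : ℤ_[ℓ]) • ((tv ρ).symm x))) := by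
      rw [← h4]
      show tv ρ' (e ((tv ρ).symm (tv ρ _))) = _
      rw [LinearEquiv.symm_apply_apply]
    rw [h5, map_smul, gs]
    rfl
  refine ⟨⟨A, A', h1, h2⟩, fun g => ?_⟩
  apply Units.ext
  rw [Units.val_mul, Units.val_mul]
  show (ρ' g : Matrix (Fin n) (Fin n) ℤ_[ℓ]) = A * (ρ g : Matrix (Fin n) (Fin n) ℤ_[ℓ]) * A'
  rw [h3, Matrix.mul_assoc, h1, Matrix.mul_one]

/-- All lattices are isomorphic, in terms of matrices. -/
def ULat (ρ : G →* GL (Fin n) ℤ_[ℓ]) : Prop := ∀ ρ' : G →* GL (Fin n) ℤ_[ℓ],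
  (∃ B : Matrix (Fin n) (Fin n) ℤ_[ℓ], B.det ≠ 0 ∧
    ∀ g, (ρ g : Matrix (Fin n) (Fin n) ℤ_[ℓ]) * B = B * ρ' g) →
  ∃ A : GL (Fin n) ℤ_[ℓ], ∀ g, ρ' g = A * ρ g * A⁻¹

instance (ρ : G →* GL (Fin n) ℤ_[ℓ]) : Module.Finite ℤ_[ℓ] (Lt ρ) :=
  Module.Finite.equiv (tv ρ).symm

instance (ρ : G →* GL (Fin n) ℤ_[ℓ]) : Module.Free ℤ_[ℓ] (Lt ρ) :=
  Module.Free.of_equiv (tv ρ).symm

theorem finrank_Lt (ρ : G →* GL (Fin n) ℤ_[ℓ]) : finrank ℤ_[ℓ] (Lt ρ) = n := by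
  rw [LinearEquiv.finrank_eq (tv ρ), Module.finrank_fin_fun]

instance (ρ : G →* GL (Fin n) ℤ_[ℓ]) : IsNoetherian ℤ_[ℓ] (Lt ρ) :=
  isNoetherian_of_isNoetherianRing_of_finite _ _

instance (ρ : G →* GL (Fin n) ℤ_[ℓ]) : IsNoetherian (MonoidAlgebra ℤ_[ℓ] G) (Lt ρ) :=
  isNoetherian_of_tower ℤ_[ℓ] inferInstance

/-- Matrices to modules. -/
theorem ul_of_ulat {ρ : G →* GL (Fin n) ℤ_[ℓ]} (h : ULat ρ) :
    UL (MonoidAlgebra ℤ_[ℓ] G) ℓ (Lt ρ) := by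
  classical
  rintro N ⟨k, hk⟩
  have i0 : IsNoetherian ℤ_[ℓ] N := isNoetherian_of_injective (N.subtype.restrictScalars ℤ_[ℓ])
    N.subtype_injective
  have i1 : Module.Finite ℤ_[ℓ] N := inferInstance
  have i2 : Module.Free ℤ_[ℓ] N := by
    have h1 : Module.Free ℤ_[ℓ] (N.restrictScalars ℤ_[ℓ]) := by
      obtain ⟨r, ⟨c⟩⟩ := Submodule.nonempty_basis_of_pid
        (Module.finBasis ℤ_[ℓ] (Lt ρ)) (N.restrictScalars ℤ_[ℓ])
      exact Module.Free.of_basis c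
    let e : (N.restrictScalars ℤ_[ℓ]) ≃ₗ[ℤ_[ℓ]] N :=
      { toFun := fun x => ⟨x.1, x.2⟩
        invFun := fun x => ⟨x.1, x.2⟩
        map_add' := fun _ _ => rfl
        map_smul' := fun _ _ => rfl
        left_inv := fun _ => rfl
        right_inv := fun _ => rfl }
    exact Module.Free.of_equiv e
  have hfr : finrank ℤ_[ℓ] N = n := by
    apply le_antisymm
    · have h1 := LinearMap.finrank_le_finrank_of_injective
        (f := (N.subtype.restrictScalars ℤ_[ℓ])) N.subtype_injective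
      rwa [finrank_Lt] at h1
    · let f : Lt ρ →ₗ[ℤ_[ℓ]] N :=
        { toFun := fun x => ⟨(ℓ ^ k) • x, hk x⟩
          map_add' := fun x y => Subtype.ext (smul_add _ _ _)
          map_smul' := fun c x => Subtype.ext (smul_comm _ _ _) }
      have hf : Function.Injective f := by
        intro x y hxy
        have h1 : (ℓ ^ k) • x = (ℓ ^ k) • y := congrArg Subtype.val hxy
        have h2 : ((ℓ ^ k : ℕ) : ℤ_[ℓ]) • x = ((ℓ ^ k : ℕ) : ℤ_[ℓ]) • y := by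
          rw [Nat.cast_smul_eq_nsmul, Nat.cast_smul_eq_nsmul]; exact h1
        have h3 := congrArg (tv ρ) h2
        rw [map_smul, map_smul] at h3
        apply (tv ρ).injective
        have h4 : ((ℓ ^ k : ℕ) : ℤ_[ℓ]) ≠ 0 :=
          Nat.cast_ne_zero.2 (pow_ne_zero _ hℓ.out.ne_zero)
        funext i
        have h5 := congrFun h3 i
        simp only [Pi.smul_apply, smul_eq_mul] at h5
        exact mul_left_cancel₀ h4 h5
      have h1 := LinearMap.finrank_le_finrank_of_injective hf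
      rwa [finrank_Lt] at h1
  let b : Basis (Fin n) ℤ_[ℓ] N := Module.finBasisOfFinrankEq ℤ_[ℓ] N hfr
  let σ : Representation ℤ_[ℓ] G N := Representation.ofModule' N
  have hσ : ∀ (g : G) (y : N), ((σ g y : N) : Lt ρ) =
      MonoidAlgebra.single g (1 : ℤ_[ℓ]) • (y : Lt ρ) := fun g y => rfl
  let M : G →* Matrix (Fin n) (Fin n) ℤ_[ℓ] :=
    ((LinearMap.toMatrixAlgEquiv b).toAlgHom : _ →* _).comp σ
  let ρ' : G →* GL (Fin n) ℤ_[ℓ] := M.toHomUnits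
  let B : Matrix (Fin n) (Fin n) ℤ_[ℓ] := Matrix.of fun i j => tv ρ (b j : Lt ρ) i
  have hB : ∀ x, B.mulVec x = tv ρ ((b.equivFun.symm x : N) : Lt ρ) := by
    intro x
    funext i
    rw [b.equivFun_symm_apply]
    have h1 : (((∑ j, x j • b j : N)) : Lt ρ) = ∑ j, x j • (b j : Lt ρ) := by
      rw [AddSubmonoidClass.coe_finsetSum]
      rfl
    rw [h1, map_sum, Finset.sum_apply]
    simp only [Matrix.mulVec, dotProduct, B, Matrix.of_apply]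
    refine Finset.sum_congr rfl fun j _ => ?_
    rw [map_smul, Pi.smul_apply, smul_eq_mul, mul_comm]
  have hρ' : ∀ (g : G) (x : Fin n → ℤ_[ℓ]), b.equivFun.symm
      ((ρ' g : Matrix (Fin n) (Fin n) ℤ_[ℓ]).mulVec x) = σ g (b.equivFun.symm x) := by
    intro g x
    apply b.equivFun.injective
    rw [LinearEquiv.apply_symm_apply]
    have h1 := LinearMap.toMatrix_mulVec_repr b b (σ g) (b.equivFun.symm x)
    have h2 : (b.repr (b.equivFun.symm x) : Fin n → ℤ_[ℓ]) = x := by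
      have := b.equivFun.apply_symm_apply x
      exact this
    rw [h2] at h1
    exact h1
  have ext : ∀ M N : Matrix (Fin n) (Fin n) ℤ_[ℓ], (∀ x, M.mulVec x = N.mulVec x) → M = N := by
    intro M N h
    ext i j
    have h1 := congrFun (h (Pi.single j 1)) i
    simpa using h1
  have hBρ : ∀ g, (ρ g : Matrix (Fin n) (Fin n) ℤ_[ℓ]) * B = B * ρ' g := fun g => ext _ _ fun x => by
    rw [← Matrix.mulVec_mulVec, ← Matrix.mulVec_mulVec, hB, hB, hρ', hσ, gs]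
  have hdet : B.det ≠ 0 := by
    intro h0
    obtain ⟨v, hv, hv'⟩ := Matrix.exists_mulVec_eq_zero_iff.2 h0
    rw [hB] at hv'
    have h1 : ((b.equivFun.symm v : N) : Lt ρ) = 0 := (tv ρ).injective (by rw [hv', map_zero])
    have h2 : b.equivFun.symm v = 0 := Subtype.ext h1
    exact hv (b.equivFun.symm.injective (by rw [h2, map_zero]))
  obtain ⟨A, hA⟩ := h ρ' ⟨B, hdet, hBρ⟩
  have hC : ∀ g, (B * (A : Matrix (Fin n) (Fin n) ℤ_[ℓ])) * (ρ g : Matrix (Fin n) (Fin n) ℤ_[ℓ]) =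
      (ρ g : Matrix (Fin n) (Fin n) ℤ_[ℓ]) * (B * (A : Matrix (Fin n) (Fin n) ℤ_[ℓ])) := by
    intro g
    rw [← Matrix.mul_assoc (ρ g : Matrix (Fin n) (Fin n) ℤ_[ℓ]), hBρ, Matrix.mul_assoc,
      Matrix.mul_assoc]
    congr 1
    have h1 : ρ' g * A = A * ρ g := by rw [hA g]; group
    have h2 := congrArg (Units.val) h1
    rw [Units.val_mul, Units.val_mul] at h2
    exact h2.symm
  have hmem : ∀ x : Lt ρ, hom (B * (A : Matrix (Fin n) (Fin n) ℤ_[ℓ])) hC x =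
      (b.equivFun.symm ((A : Matrix (Fin n) (Fin n) ℤ_[ℓ]).mulVec (tv ρ x)) : N) := by
    intro x
    apply (tv ρ).injective
    rw [hom_apply, ← Matrix.mulVec_mulVec, hB]
  let τ : Lt ρ →ₗ[MonoidAlgebra ℤ_[ℓ] G] N :=
    (hom (B * (A : Matrix (Fin n) (Fin n) ℤ_[ℓ])) hC).codRestrict N (fun x => by
      rw [hmem]; exact Subtype.mem _)
  have hτ : ∀ x, τ x = b.equivFun.symm ((A : Matrix (Fin n) (Fin n) ℤ_[ℓ]).mulVec (tv ρ x)) :=
    fun x => Subtype.ext (hmem x)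
  have hAinv : (A : Matrix (Fin n) (Fin n) ℤ_[ℓ]) * ((A⁻¹ : GL (Fin n) ℤ_[ℓ]) :
      Matrix (Fin n) (Fin n) ℤ_[ℓ]) = 1 := by
    rw [← Units.val_mul, mul_inv_cancel, Units.val_one]
  have hAinv' : ((A⁻¹ : GL (Fin n) ℤ_[ℓ]) : Matrix (Fin n) (Fin n) ℤ_[ℓ]) *
      (A : Matrix (Fin n) (Fin n) ℤ_[ℓ]) = 1 := by
    rw [← Units.val_mul, inv_mul_cancel, Units.val_one]
  have hbij : Function.Bijective τ := by
    constructor
    · intro x y hxy
      rw [hτ, hτ] at hxy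
      have h1 := b.equivFun.symm.injective hxy
      have h2 := congrArg (((A⁻¹ : GL (Fin n) ℤ_[ℓ]) : Matrix (Fin n) (Fin n) ℤ_[ℓ]).mulVec) h1
      rw [Matrix.mulVec_mulVec, Matrix.mulVec_mulVec, hAinv', Matrix.one_mulVec,
        Matrix.one_mulVec] at h2
      exact (tv ρ).injective h2
    · intro y
      refine ⟨(tv ρ).symm (((A⁻¹ : GL (Fin n) ℤ_[ℓ]) : Matrix (Fin n) (Fin n) ℤ_[ℓ]).mulVec
        (b.equivFun y)), ?_⟩
      rw [hτ, LinearEquiv.apply_symm_apply, Matrix.mulVec_mulVec, hAinv, Matrix.one_mulVec,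
        LinearEquiv.symm_apply_apply]
  exact ⟨(LinearEquiv.ofBijective τ hbij).symm⟩

/-- Injective maps between free modules of the same rank have full range. -/
theorem full_range {M₁ M₂ : Type} [AddCommGroup M₁] [Module ℤ_[ℓ] M₁] [Module.Free ℤ_[ℓ] M₁]
    [Module.Finite ℤ_[ℓ] M₁] [AddCommGroup M₂] [Module ℤ_[ℓ] M₂] [Module.Free ℤ_[ℓ] M₂]
    [Module.Finite ℤ_[ℓ] M₂] (f : M₁ →ₗ[ℤ_[ℓ]] M₂) (hf : Function.Injective f) {d : ℕ}
    (h₁ : finrank ℤ_[ℓ] M₁ = d) (h₂ : finrank ℤ_[ℓ] M₂ = d) :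
    ∃ k : ℕ, ∀ y : M₂, ∃ x : M₁, f x = (ℓ ^ k) • y := by
  classical
  let b₁ : Basis (Fin d) ℤ_[ℓ] M₁ := Module.finBasisOfFinrankEq ℤ_[ℓ] M₁ h₁
  let b₂ : Basis (Fin d) ℤ_[ℓ] M₂ := Module.finBasisOfFinrankEq ℤ_[ℓ] M₂ h₂
  let P : Matrix (Fin d) (Fin d) ℤ_[ℓ] := LinearMap.toMatrix b₁ b₂ f
  have hP : ∀ x : M₁, P.mulVec (b₁.equivFun x) = b₂.equivFun (f x) := fun x =>
    LinearMap.toMatrix_mulVec_repr b₁ b₂ f x
  have hdet : P.det ≠ 0 := by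
    intro h0
    obtain ⟨v, hv, hv'⟩ := Matrix.exists_mulVec_eq_zero_iff.2 h0
    have h1 := hP (b₁.equivFun.symm v)
    rw [LinearEquiv.apply_symm_apply, hv'] at h1
    have h2 : f (b₁.equivFun.symm v) = 0 := b₂.equivFun.injective (by rw [← h1, map_zero])
    have h3 : b₁.equivFun.symm v = 0 := hf (by rw [h2, map_zero])
    exact hv (b₁.equivFun.symm.injective (by rw [h3, map_zero]))
  refine ⟨P.det.valuation, fun y => ?_⟩
  let u := PadicInt.unitCoeff hdet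
  refine ⟨((u⁻¹ : ℤ_[ℓ]ˣ) : ℤ_[ℓ]) • b₁.equivFun.symm (P.adjugate.mulVec (b₂.equivFun y)), ?_⟩
  apply b₂.equivFun.injective
  rw [map_smul, map_smul, ← hP, LinearEquiv.apply_symm_apply, Matrix.mulVec_mulVec,
    Matrix.mul_adjugate, Matrix.smul_mulVec, Matrix.one_mulVec, smul_smul]
  have h1 : P.det = u * (ℓ : ℤ_[ℓ]) ^ P.det.valuation := PadicInt.unitCoeff_spec hdet
  have h2 : ((u⁻¹ : ℤ_[ℓ]ˣ) : ℤ_[ℓ]) * P.det = (ℓ : ℤ_[ℓ]) ^ P.det.valuation := by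
    conv_lhs => rw [h1]
    rw [← mul_assoc, Units.inv_mul, one_mul]
  rw [h2, map_nsmul, ← Nat.cast_smul_eq_nsmul ℤ_[ℓ], Nat.cast_pow]

end Pool.Agent.Run7.h879.DS
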