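import Mathlib

/-!
# Full submodules of direct sums without common simple quotients
-/

set_option autoImplicit false

namespace Pool.Agent.Run7.h879.DS

open Module

variable (R : Type) [Ring R] (ℓ : ℕ)

/-- `N` contains `ℓ^k M` for some `k`. -/
def Full {M : Type} [AddCommGroup M] [Module R M] (N : Submodule R M) : Prop :=
  ∃ k : ℕ, ∀ x : M, (ℓ ^ k) • x ∈ N

/-- Each submodule which contains some `ℓ^k M` is isomorphic to `M`. -/
def UL (M : Type) [AddCommGroup M] [Module R M] : Prop :=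
  ∀ N : Submodule R M, Full R ℓ N → Nonempty (N ≃ₗ[R] M)

/-- `X` and `Y` have no common simple quotient. -/
def Sep (X Y : Type) [AddCommGroup X] [Module R X] [AddCommGroup Y] [Module R Y] : Prop :=
  ∀ (S : Type) [AddCommGroup S] [Module R S] [IsSimpleModule R S] (f : X →ₗ[R] S) (g : Y →ₗ[R] S),
    Function.Surjective f → Function.Surjective g → False

variable {R ℓ} {X Y Y₁ Y₂ : Type} [AddCommGroup X] [Module R X] [AddCommGroup Y] [Module R Y]
  [AddCommGroup Y₁] [Module R Y₁] [AddCommGroup Y₂] [Module R Y₂]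

theorem Sep.symm (h : Sep R X Y) : Sep R Y X := fun S _ _ _ f g hf hg => h S g f hg hf

theorem Sep.congr (h : Sep R X Y) (e : Y ≃ₗ[R] Y₁) : Sep R X Y₁ := fun S _ _ _ f g hf hg =>
  h S f (g.comp e.toLinearMap) hf (hg.comp e.surjective)

theorem Sep.prod (h₁ : Sep R X Y₁) (h₂ : Sep R X Y₂) : Sep R X (Y₁ × Y₂) := by
  intro S _ _ _ f g hf hg
  rcases LinearMap.surjective_or_eq_zero (g.comp (LinearMap.inl R Y₁ Y₂)) with h | h
  · exact h₁ S f _ hf h
  rcases LinearMap.surjective_or_eq_zero (g.comp (LinearMap.inr R Y₁ Y₂)) with h' | h'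
  · exact h₂ S f _ hf h'
  have h3 : g = 0 := by
    apply LinearMap.ext
    rintro ⟨y, z⟩
    have h4 := LinearMap.congr_fun h y
    have h5 := LinearMap.congr_fun h' z
    have h6 : ((y, z) : Y₁ × Y₂) = (y, 0) + (0, z) := by simp
    rw [h6, map_add]
    simp only [LinearMap.comp_apply, LinearMap.inl_apply, LinearMap.inr_apply,
      LinearMap.zero_apply] at h4 h5
    rw [h4, h5, add_zero, LinearMap.zero_apply]
  have hnt : Nontrivial S := IsSimpleModule.nontrivial R S
  obtain ⟨s, hs⟩ := exists_ne (0 : S)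
  obtain ⟨y, hy⟩ := hg s
  rw [h3, LinearMap.zero_apply] at hy
  exact hs hy.symm

theorem UL.congr (h : UL R ℓ X) (e : X ≃ₗ[R] Y) : UL R ℓ Y := by
  rintro N ⟨k, hk⟩
  have h1 : Full R ℓ (N.comap e.toLinearMap) := ⟨k, fun x => by
    rw [Submodule.mem_comap]
    show e (ℓ ^ k • x) ∈ N
    rw [map_nsmul]
    exact hk _⟩
  obtain ⟨f⟩ := h _ h1
  have h2 : N.comap e.toLinearMap = N.map e.symm.toLinearMap := by
    exact (Submodule.map_equiv_eq_comap_symm e.symm N).symm
  let e2 : N ≃ₗ[R] N.comap e.toLinearMap :=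
    (e.symm.submoduleMap N).trans (LinearEquiv.ofEq _ _ h2.symm)
  exact ⟨e2.trans (f.trans e)⟩

/-- **Two summands without common simple quotient.** -/
theorem UL.prod [IsNoetherian R X] (hX : UL R ℓ X) (hY : UL R ℓ Y) (hs : Sep R X Y) :
    UL R ℓ (X × Y) := by
  classical
  rintro N ⟨k, hk⟩
  let NX : Submodule R X := N.map (LinearMap.fst R X Y)
  let NY : Submodule R Y := N.map (LinearMap.snd R X Y)
  have hNX : Full R ℓ NX := ⟨k, fun x => ⟨(ℓ ^ k • x, 0), by
    have h := hk (x, 0)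
    rwa [Prod.smul_mk, smul_zero] at h, rfl⟩⟩
  have hNY : Full R ℓ NY := ⟨k, fun y => ⟨(0, ℓ ^ k • y), by
    have h := hk (0, y)
    rwa [Prod.smul_mk, smul_zero] at h, rfl⟩⟩
  obtain ⟨eX⟩ := hX NX hNX
  obtain ⟨eY⟩ := hY NY hNY
  have hclaim : ∀ x ∈ NX, (x, (0 : Y)) ∈ N := by
    by_contra hcon
    push Not at hcon
    obtain ⟨x₀, hx₀, hx₀'⟩ := hcon
    let LX : Submodule R NX := (N.comap (LinearMap.inl R X Y)).comap NX.subtype
    have hLX : LX ≠ ⊤ := by
      intro h
      have h1 : (⟨x₀, hx₀⟩ : NX) ∈ LX := by rw [h]; trivial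
      exact hx₀' h1
    obtain ⟨K, hK, hLK⟩ := (eq_top_or_exists_le_coatom LX).resolve_left hLX
    have hS : IsSimpleModule R (NX ⧸ K) := isSimpleModule_iff_isCoatom.2 hK
    let φ : N →ₗ[R] (NX ⧸ K) := K.mkQ.comp
      ((LinearMap.fst R X Y).restrict (p := N) (q := NX) (fun n hn => ⟨n, hn, rfl⟩))
    let ψ : N →ₗ[R] NY := (LinearMap.snd R X Y).restrict (p := N) (q := NY)
      (fun n hn => ⟨n, hn, rfl⟩)
    have hψ : Function.Surjective ψ := by
      rintro ⟨y, n, hn, hny⟩
      exact ⟨⟨n, hn⟩, Subtype.ext hny⟩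
    have hφ : Function.Surjective φ := by
      intro s
      obtain ⟨⟨x, n, hn, hnx⟩, rfl⟩ := K.mkQ_surjective s
      refine ⟨⟨n, hn⟩, ?_⟩
      show K.mkQ _ = K.mkQ _
      congr 1
      exact Subtype.ext hnx
    have hker : LinearMap.ker ψ ≤ LinearMap.ker φ := by
      rintro ⟨⟨x, y⟩, hn⟩ hker
      rw [LinearMap.mem_ker] at hker ⊢
      have hy : y = 0 := congrArg Subtype.val hker
      subst hy
      show K.mkQ _ = 0
      rw [Submodule.mkQ_apply, Submodule.Quotient.mk_eq_zero]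
      exact hLK hn
    let θ : NY →ₗ[R] (NX ⧸ K) := ((LinearMap.ker ψ).liftQ φ hker).comp
      (ψ.quotKerEquivOfSurjective hψ).symm.toLinearMap
    have hθ : Function.Surjective θ := by
      intro s
      obtain ⟨n, rfl⟩ := hφ s
      refine ⟨(ψ.quotKerEquivOfSurjective hψ) ((LinearMap.ker ψ).mkQ n), ?_⟩
      show ((LinearMap.ker ψ).liftQ φ hker) ((ψ.quotKerEquivOfSurjective hψ).symm
        ((ψ.quotKerEquivOfSurjective hψ) ((LinearMap.ker ψ).mkQ n))) = φ n
      rw [LinearEquiv.symm_apply_apply]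
      exact Submodule.liftQ_apply _ _ _
    exact hs (NX ⧸ K) (K.mkQ.comp eX.symm.toLinearMap) (θ.comp eY.symm.toLinearMap)
      (K.mkQ_surjective.comp eX.symm.surjective) (hθ.comp eY.symm.surjective)
  let τ : N →ₗ[R] NX × NY :=
    ((LinearMap.fst R X Y).restrict (p := N) (q := NX) (fun n hn => ⟨n, hn, rfl⟩)).prod
      ((LinearMap.snd R X Y).restrict (p := N) (q := NY) (fun n hn => ⟨n, hn, rfl⟩))
  have hτ : Function.Bijective τ := by
    constructor
    · rintro ⟨⟨x, y⟩, hn⟩ ⟨⟨x', y'⟩, hn'⟩ h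
      have h1 : x = x' := congrArg (fun z : NX × NY => (z.1 : X)) h
      have h2 : y = y' := congrArg (fun z : NX × NY => (z.2 : Y)) h
      subst h1
      subst h2
      rfl
    · rintro ⟨⟨x, hx⟩, ⟨y, n, hn, hny⟩⟩
      obtain ⟨x', y'⟩ := n
      have hy' : y' = y := hny
      subst hy'
      have h1 := hclaim x hx
      have h2 := hclaim x' ⟨_, hn, rfl⟩
      have h3 : (x, y') ∈ N := by
        have h4 := N.add_mem h1 (N.sub_mem hn h2)
        simpa using h4
      exact ⟨⟨(x, y'), h3⟩, rfl⟩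
  exact ⟨(LinearEquiv.ofBijective τ hτ).trans (eX.prodCongr eY)⟩

theorem UL.of_subsingleton [Subsingleton X] : UL R ℓ X := by
  intro N _
  exact ⟨LinearEquiv.ofBijective (0 : N →ₗ[R] X)
    ⟨fun x y _ => Subsingleton.elim _ _, fun x => ⟨0, Subsingleton.elim _ _⟩⟩⟩

theorem Sep.of_subsingleton [Subsingleton Y] : Sep R X Y := by
  intro S _ _ _ f g hf hg
  have hnt : Nontrivial S := IsSimpleModule.nontrivial R S
  obtain ⟨s, hs⟩ := exists_ne (0 : S)
  obtain ⟨y, hy⟩ := hg s
  rw [Subsingleton.elim y 0, map_zero] at hy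
  exact hs hy.symm

theorem Sep.pi : ∀ (k : ℕ) (B : Fin k → Type) [∀ i, AddCommGroup (B i)] [∀ i, Module R (B i)],
    (∀ i, Sep R X (B i)) → Sep R X (∀ i, B i) := by
  intro k
  induction k with
  | zero => intro B _ _ _; exact Sep.of_subsingleton
  | succ k ih =>
    intro B _ _ h
    have h1 : Sep R X (B 0 × ∀ i : Fin k, B i.succ) := (h 0).prod (ih _ fun i => h i.succ)
    exact h1.congr (Fin.consLinearEquiv R B)

/-- **Several summands without common simple quotients.** -/
theorem UL.pi : ∀ (k : ℕ) (B : Fin k → Type) [∀ i, AddCommGroup (B i)] [∀ i, Module R (B i)]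
    [∀ i, IsNoetherian R (B i)], (∀ i, UL R ℓ (B i)) → (∀ i j, i ≠ j → Sep R (B i) (B j)) →
    UL R ℓ (∀ i, B i) := by
  intro k
  induction k with
  | zero => intro B _ _ _ _ _; exact UL.of_subsingleton
  | succ k ih =>
    intro B _ _ _ hB hs
    have h1 : UL R ℓ (B 0 × ∀ i : Fin k, B i.succ) :=
      (hB 0).prod (ih _ (fun i => hB i.succ) fun i j hij => hs _ _ fun h => hij
        (Fin.succ_injective _ h)) (Sep.pi k _ fun i => hs 0 i.succ (Fin.succ_ne_zero i).symm)
    exact h1.congr (Fin.consLinearEquiv R B)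

/-- Injective maps with full range into a module with the property `UL` differ by an isomorphism. -/
theorem UL.unique {M : Type} [AddCommGroup M] [Module R M] (h : UL R ℓ M) (f : X →ₗ[R] M)
    (g : Y →ₗ[R] M) (hf : Function.Injective f) (hg : Function.Injective g)
    (hf' : Full R ℓ (LinearMap.range f)) (hg' : Full R ℓ (LinearMap.range g)) :
    Nonempty (X ≃ₗ[R] Y) := by
  obtain ⟨e⟩ := h _ hf'
  obtain ⟨e'⟩ := h _ hg'
  exact ⟨(LinearEquiv.ofInjective f hf).trans (e.trans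
    (e'.symm.trans (LinearEquiv.ofInjective g hg).symm))⟩

end Pool.Agent.Run7.h879.DS
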