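import Pool.Agent.Run7.h879.DS.Lat

/-!
# Simple quotients of residually irreducible representations
-/

set_option autoImplicit false
set_option linter.unusedSectionVars false

namespace Pool.Agent.Run7.h879.DS

open Module Matrix

variable {G : Type} [Group G] {ℓ : ℕ} [hℓ : Fact ℓ.Prime] {n m : ℕ}

/-- The residual representation is irreducible. -/
def ResIrr (ρ : G →* GL (Fin n) ℤ_[ℓ]) : Prop :=
  ∀ U : Submodule (ZMod ℓ) (Fin n → ZMod ℓ),
    (∀ g : G, ∀ u ∈ U, ((ρ g : Matrix (Fin n) (Fin n) ℤ_[ℓ]).map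
      (PadicInt.toZMod (p := ℓ))).mulVec u ∈ U) → U = ⊥ ∨ U = ⊤

/-- reduction of vectors -/
noncomputable def rv (x : Fin n → ℤ_[ℓ]) : Fin n → ZMod ℓ := fun i => PadicInt.toZMod (x i)

theorem rv_add (x y : Fin n → ℤ_[ℓ]) : rv (x + y) = rv x + rv y := by
  funext i; exact map_add _ _ _

theorem rv_sub (x y : Fin n → ℤ_[ℓ]) : rv (x - y) = rv x - rv y := by
  funext i; exact map_sub _ _ _

theorem rv_mulVec (A : Matrix (Fin m) (Fin n) ℤ_[ℓ]) (x : Fin n → ℤ_[ℓ]) :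
    rv (A.mulVec x) = (A.map (PadicInt.toZMod (p := ℓ))).mulVec (rv x) := by
  funext i
  simp only [rv, Matrix.mulVec, dotProduct, map_sum, map_mul, Matrix.map_apply]

theorem toZMod_zero_iff {x : ℤ_[ℓ]} : PadicInt.toZMod x = 0 ↔ ∃ y, x = (ℓ : ℤ_[ℓ]) * y := by
  rw [← RingHom.mem_ker, PadicInt.ker_toZMod, PadicInt.maximalIdeal_eq_span_p,
    Ideal.mem_span_singleton]
  rfl

theorem rv_zero_iff {x : Fin n → ℤ_[ℓ]} : rv x = 0 ↔ ∃ y : Fin n → ℤ_[ℓ], x = ℓ • y := by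
  constructor
  · intro h
    choose y hy using fun i => toZMod_zero_iff.1 (congrFun h i)
    refine ⟨y, funext fun i => ?_⟩
    rw [Pi.smul_apply, nsmul_eq_mul]
    exact hy i
  · rintro ⟨y, rfl⟩
    funext i
    exact toZMod_zero_iff.2 ⟨y i, by rw [Pi.smul_apply, nsmul_eq_mul]⟩

theorem zmod_surj (c : ZMod ℓ) : ∃ x : ℤ_[ℓ], PadicInt.toZMod x = c := by
  have : NeZero ℓ := ⟨hℓ.out.ne_zero⟩
  exact ⟨(c.val : ℤ_[ℓ]), by rw [map_natCast, ZMod.natCast_val, ZMod.cast_id', id_eq]⟩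

variable {ρ : G →* GL (Fin n) ℤ_[ℓ]} {ρ' : G →* GL (Fin m) ℤ_[ℓ]}
  {S : Type} [AddCommGroup S] [Module (MonoidAlgebra ℤ_[ℓ] G) S]
  [IsSimpleModule (MonoidAlgebra ℤ_[ℓ] G) S]

/-- **The kernel of a map onto a simple module is `ℓ ℤ_ℓ^n`.** -/
theorem ker_iff (hirr : ResIrr ρ) (g : Lt ρ →ₗ[MonoidAlgebra ℤ_[ℓ] G] S)
    (hg : Function.Surjective g) (x : Lt ρ) : g x = 0 ↔ rv (tv ρ x) = 0 := by
  classical
  have hnt : Nontrivial S := IsSimpleModule.nontrivial (MonoidAlgebra ℤ_[ℓ] G) S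
  let K : Submodule (MonoidAlgebra ℤ_[ℓ] G) (Lt ρ) := LinearMap.ker g
  have hK : IsCoatom K := by
    rw [← isSimpleModule_iff_isCoatom]
    exact IsSimpleModule.congr (g.quotKerEquivOfSurjective hg)
  let J : Submodule (MonoidAlgebra ℤ_[ℓ] G) (Lt ρ) :=
    LinearMap.range ((ℓ : ℕ) • (LinearMap.id : Lt ρ →ₗ[MonoidAlgebra ℤ_[ℓ] G] Lt ρ))
  have hJ : ∀ y : Lt ρ, ℓ • y ∈ J := fun y => ⟨y, rfl⟩
  have hmul : ∀ y : Lt ρ, g (ℓ • y) = 0 := by
    by_contra hcon
    push Not at hcon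
    obtain ⟨y, hy⟩ := hcon
    have h1 : K < K ⊔ J := by
      refine lt_of_le_of_ne le_sup_left fun h => hy ?_
      have h2 : ℓ • y ∈ K ⊔ J := (le_sup_right : J ≤ K ⊔ J) (hJ y)
      rw [← h] at h2
      exact h2
    have h2 : K ⊔ J = ⊤ := hK.2 _ h1
    have h3 : (⊤ : Submodule ℤ_[ℓ] (Lt ρ)) ≤ K.restrictScalars ℤ_[ℓ] := by
      refine Submodule.le_of_le_smul_of_le_jacobson_bot (I := Ideal.span {(ℓ : ℤ_[ℓ])})
        Module.Finite.fg_top ?_ ?_
      · rw [IsLocalRing.jacobson_eq_maximalIdeal _ bot_ne_top, PadicInt.maximalIdeal_eq_span_p]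
      · intro z _
        have h4 : z ∈ K ⊔ J := by rw [h2]; trivial
        obtain ⟨k, hk, j, ⟨w, hw⟩, rfl⟩ := Submodule.mem_sup.1 h4
        refine Submodule.add_mem_sup hk ?_
        have h5 : j = (ℓ : ℤ_[ℓ]) • w := by
          rw [← hw, Nat.cast_smul_eq_nsmul]
          rfl
        rw [h5]
        exact Submodule.smul_mem_smul (Ideal.mem_span_singleton_self _) trivial
    obtain ⟨s, hs⟩ := exists_ne (0 : S)
    obtain ⟨z, rfl⟩ := hg s
    exact hs (h3 (Submodule.mem_top : z ∈ ⊤))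
  have hback : ∀ y : Lt ρ, rv (tv ρ y) = 0 → g y = 0 := by
    intro y hy
    obtain ⟨z, hz⟩ := rv_zero_iff.1 hy
    have h1 : y = ℓ • (tv ρ).symm z := by
      apply (tv ρ).injective
      rw [map_nsmul, LinearEquiv.apply_symm_apply]
      exact hz
    rw [h1]
    exact hmul _
  refine ⟨fun hx => ?_, hback x⟩
  let U : Submodule (ZMod ℓ) (Fin n → ZMod ℓ) :=
    { carrier := {u | ∃ y : Lt ρ, g y = 0 ∧ rv (tv ρ y) = u}
      zero_mem' := ⟨0, map_zero _, by rw [map_zero]; funext i; exact map_zero _⟩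
      add_mem' := by
        rintro _ _ ⟨y, hy, rfl⟩ ⟨z, hz, rfl⟩
        exact ⟨y + z, by rw [map_add, hy, hz, add_zero], by rw [map_add, rv_add]⟩
      smul_mem' := by
        rintro c _ ⟨y, hy, rfl⟩
        obtain ⟨c', rfl⟩ := zmod_surj c
        refine ⟨c' • y, ?_, ?_⟩
        · have h1 : c' • y = (algebraMap ℤ_[ℓ] (MonoidAlgebra ℤ_[ℓ] G) c') • y :=
            (algebraMap_smul _ _ _).symm
          rw [h1, map_smul, hy, smul_zero]
        · rw [map_smul]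
          funext i
          exact map_mul _ _ _ }
  have hU : ∀ g' : G, ∀ u ∈ U, ((ρ g' : Matrix (Fin n) (Fin n) ℤ_[ℓ]).map
      (PadicInt.toZMod (p := ℓ))).mulVec u ∈ U := by
    rintro g' _ ⟨y, hy, rfl⟩
    refine ⟨MonoidAlgebra.single g' (1 : ℤ_[ℓ]) • y, by rw [map_smul, hy, smul_zero], ?_⟩
    rw [gs, rv_mulVec]
  rcases hirr U hU with h | h
  · have h1 : rv (tv ρ x) ∈ U := ⟨x, hx, rfl⟩
    rw [h, Submodule.mem_bot] at h1
    exact h1
  · exfalso
    obtain ⟨s, hs⟩ := exists_ne (0 : S)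
    obtain ⟨z, rfl⟩ := hg s
    have h1 : rv (tv ρ z) ∈ U := by rw [h]; trivial
    obtain ⟨y, hy, hyz⟩ := h1
    have h2 : g (z - y) = 0 := hback _ (by rw [map_sub, rv_sub, hyz, sub_self])
    rw [map_sub, hy, sub_zero] at h2
    exact hs h2

/-- **Residually irreducible representations with different characteristic polynomials.** -/
theorem sep_of_charpoly (h₁ : ResIrr ρ) (h₂ : ResIrr ρ') (σ : G)
    (hσ : ((ρ σ : Matrix (Fin n) (Fin n) ℤ_[ℓ]).map (PadicInt.toZMod (p := ℓ))).charpoly ≠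
      ((ρ' σ : Matrix (Fin m) (Fin m) ℤ_[ℓ]).map (PadicInt.toZMod (p := ℓ))).charpoly) :
    Sep (MonoidAlgebra ℤ_[ℓ] G) (Lt ρ) (Lt ρ') := by
  classical
  intro S _ _ _ f g hf hg
  apply hσ
  -- matrices of lifts
  have key : ∀ {a b : ℕ} {α : G →* GL (Fin a) ℤ_[ℓ]} {β : G →* GL (Fin b) ℤ_[ℓ]}
      (f : Lt α →ₗ[MonoidAlgebra ℤ_[ℓ] G] S) (g : Lt β →ₗ[MonoidAlgebra ℤ_[ℓ] G] S),
      Function.Surjective g → ∃ Y : Matrix (Fin b) (Fin a) ℤ_[ℓ],
        ∀ x, g ((tv β).symm (Y.mulVec (tv α x))) = f x := by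
    intro a b α β f g hg
    choose y hy using fun j : Fin a => hg (f ((tv α).symm (Pi.single j 1)))
    refine ⟨Matrix.of fun i j => tv β (y j) i, fun x => ?_⟩
    let g' : (Fin a → ℤ_[ℓ]) →+ S :=
      { toFun := fun v => g ((tv β).symm ((Matrix.of fun i j => tv β (y j) i).mulVec v))
        map_zero' := by rw [Matrix.mulVec_zero, map_zero, map_zero]
        map_add' := fun u v => by rw [Matrix.mulVec_add, map_add, map_add] }
    let f' : (Fin a → ℤ_[ℓ]) →+ S :=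
      { toFun := fun v => f ((tv α).symm v)
        map_zero' := by rw [map_zero, map_zero]
        map_add' := fun u v => by rw [map_add, map_add] }
    have h1 : ∀ v, g' v = f' v := by
      intro v
      have h2 : v = ∑ j, v j • (Pi.single j 1 : Fin a → ℤ_[ℓ]) := by
        funext i
        simp [Finset.sum_apply, Pi.single_apply]
      rw [h2, map_sum, map_sum]
      refine Finset.sum_congr rfl fun j _ => ?_
      show g ((tv β).symm ((Matrix.of fun i j => tv β (y j) i).mulVec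
        (v j • (Pi.single j 1 : Fin a → ℤ_[ℓ])))) = f ((tv α).symm
        (v j • (Pi.single j 1 : Fin a → ℤ_[ℓ])))
      rw [Matrix.mulVec_smul, LinearEquiv.map_smul, LinearEquiv.map_smul]
      have h3 : (Matrix.of fun i j => tv β (y j) i).mulVec (Pi.single j 1 : Fin a → ℤ_[ℓ]) =
          tv β (y j) := by
        funext i
        simp
      rw [h3, LinearEquiv.symm_apply_apply,
        ← algebraMap_smul (MonoidAlgebra ℤ_[ℓ] G) (v j) (y j),
        ← algebraMap_smul (MonoidAlgebra ℤ_[ℓ] G) (v j) ((tv α).symm (Pi.single j 1)),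
        map_smul, map_smul, hy]
    have h2 := h1 (tv α x)
    have h3 : f' (tv α x) = f x := by
      show f ((tv α).symm (tv α x)) = f x
      rw [LinearEquiv.symm_apply_apply]
    rw [h3] at h2
    exact h2
  obtain ⟨Y, hY⟩ := key f g hg
  obtain ⟨Y', hY'⟩ := key g f hf
  have ext : ∀ {a b : ℕ} (M N : Matrix (Fin a) (Fin b) (ZMod ℓ)),
      (∀ x : Fin b → ℤ_[ℓ], M.mulVec (rv x) = N.mulVec (rv x)) → M = N := by
    intro a b M N h
    ext i j
    have h1 := congrFun (h (Pi.single j 1)) i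
    have h2 : rv (Pi.single j 1 : Fin b → ℤ_[ℓ]) = Pi.single j 1 := by
      funext i
      by_cases hij : i = j
      · subst hij; simp [rv]
      · simp [rv, hij]
    rw [h2] at h1
    simpa using h1
  let φ := PadicInt.toZMod (p := ℓ)
  have hYY : Y'.map φ * Y.map φ = 1 := ext _ _ fun x => by
    rw [← Matrix.mulVec_mulVec, ← rv_mulVec, ← rv_mulVec, Matrix.one_mulVec, ← sub_eq_zero,
      ← rv_sub]
    have h3 := (ker_iff h₁ f hf ((tv ρ).symm (Y'.mulVec (Y.mulVec x) - x))).1 (by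
      rw [map_sub, map_sub]
      have h4 := hY' ((tv ρ').symm (Y.mulVec x))
      rw [LinearEquiv.apply_symm_apply] at h4
      have h5 := hY ((tv ρ).symm x)
      rw [LinearEquiv.apply_symm_apply] at h5
      rw [h4, h5, sub_self])
    rw [LinearEquiv.apply_symm_apply] at h3
    exact h3
  have hYY' : Y.map φ * Y'.map φ = 1 := ext _ _ fun x => by
    rw [← Matrix.mulVec_mulVec, ← rv_mulVec, ← rv_mulVec, Matrix.one_mulVec, ← sub_eq_zero,
      ← rv_sub]
    have h3 := (ker_iff h₂ g hg ((tv ρ').symm (Y.mulVec (Y'.mulVec x) - x))).1 (by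
      rw [map_sub, map_sub]
      have h4 := hY ((tv ρ).symm (Y'.mulVec x))
      rw [LinearEquiv.apply_symm_apply] at h4
      have h5 := hY' ((tv ρ').symm x)
      rw [LinearEquiv.apply_symm_apply] at h5
      rw [h4, h5, sub_self])
    rw [LinearEquiv.apply_symm_apply] at h3
    exact h3
  have hcomm : Y.map φ * (ρ σ : Matrix (Fin n) (Fin n) ℤ_[ℓ]).map φ =
      (ρ' σ : Matrix (Fin m) (Fin m) ℤ_[ℓ]).map φ * Y.map φ := ext _ _ fun x => by
    rw [← Matrix.mulVec_mulVec, ← Matrix.mulVec_mulVec, ← rv_mulVec, ← rv_mulVec, ← rv_mulVec,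
      ← rv_mulVec, ← sub_eq_zero, ← rv_sub]
    have h3 := (ker_iff h₂ g hg ((tv ρ').symm
      (Y.mulVec ((ρ σ : Matrix (Fin n) (Fin n) ℤ_[ℓ]).mulVec x) -
        (ρ' σ : Matrix (Fin m) (Fin m) ℤ_[ℓ]).mulVec (Y.mulVec x)))).1 (by
      rw [map_sub, map_sub]
      have h4 := hY (MonoidAlgebra.single σ (1 : ℤ_[ℓ]) • (tv ρ).symm x)
      rw [gs, LinearEquiv.apply_symm_apply, map_smul] at h4
      have h5 := gs ρ' σ ((tv ρ').symm (Y.mulVec x))
      rw [LinearEquiv.apply_symm_apply] at h5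
      have h6 : (tv ρ').symm ((ρ' σ : Matrix (Fin m) (Fin m) ℤ_[ℓ]).mulVec (Y.mulVec x)) =
          MonoidAlgebra.single σ (1 : ℤ_[ℓ]) • (tv ρ').symm (Y.mulVec x) := by
        apply (tv ρ').injective
        rw [LinearEquiv.apply_symm_apply, h5]
      have h7 := hY ((tv ρ).symm x)
      rw [LinearEquiv.apply_symm_apply] at h7
      rw [h4, h6, map_smul, h7, sub_self])
    rw [LinearEquiv.apply_symm_apply] at h3
    exact h3
  let e : (Fin n → ZMod ℓ) ≃ₗ[ZMod ℓ] (Fin m → ZMod ℓ) :=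
    LinearEquiv.ofLinearMap (Matrix.toLin' (Y.map φ)) (Matrix.toLin' (Y'.map φ))
      (by rw [← Matrix.toLin'_mul, hYY', Matrix.toLin'_one])
      (by rw [← Matrix.toLin'_mul, hYY, Matrix.toLin'_one])
  have h1 : e.conj (Matrix.toLin' ((ρ σ : Matrix (Fin n) (Fin n) ℤ_[ℓ]).map φ)) =
      Matrix.toLin' ((ρ' σ : Matrix (Fin m) (Fin m) ℤ_[ℓ]).map φ) := by
    apply LinearMap.ext
    intro x
    rw [LinearEquiv.conj_apply_apply]
    show (Y.map φ).mulVec (((ρ σ : Matrix (Fin n) (Fin n) ℤ_[ℓ]).map φ).mulVec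
      ((Y'.map φ).mulVec x)) = ((ρ' σ : Matrix (Fin m) (Fin m) ℤ_[ℓ]).map φ).mulVec x
    rw [Matrix.mulVec_mulVec, hcomm, ← Matrix.mulVec_mulVec, Matrix.mulVec_mulVec _ (Y.map φ),
      hYY', Matrix.one_mulVec]
  have h2 := LinearEquiv.charpoly_conj e (Matrix.toLin' ((ρ σ : Matrix (Fin n) (Fin n) ℤ_[ℓ]).map φ))
  rw [h1] at h2
  rw [Matrix.charpoly_toLin', Matrix.charpoly_toLin'] at h2
  exact h2.symm

end Pool.Agent.Run7.h879.DS
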