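import Pool.Agent.Run7.h879.DS.Ab
import Pool.Agent.Run7.h306.AB10
import Pool.Agent.R390.SF.DegI

/-!
# Finiteness of the sums of a potentially abelian system and of maximally degenerate systems
-/

set_option autoImplicit false
set_option linter.unusedSectionVars false

namespace Pool.Agent.Run7.h879.DS

open Module Matrix Polynomial NumberField Pool.Agent.Y800 Pool.Agent.R390.SF
open Pool.Agent.R390.SF.IntegralSystem Pool.Agent.Run7.h306.AB

section lattice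

variable {G : Type} [Group G] {ℓ : ℕ} [hℓ : Fact ℓ.Prime] {n a k : ℕ} {r : Fin k → ℕ}

/-- The representation `ρ ⊗ ℚ_ℓ` is isomorphic to the direct sum of `α ⊗ ℚ_ℓ` and of the
`β_i ⊗ ℚ_ℓ`: the ranks agree, and there is an injective equivariant map from `ℤ_ℓ^n` to
`ℤ_ℓ^a ⊕ ⨁ ℤ_ℓ^(r_i)`, given by the matrices `C` and `D_i`. -/
def IsSum (ρ : G →* GL (Fin n) ℤ_[ℓ]) (α : G →* GL (Fin a) ℤ_[ℓ])
    (β : ∀ i, G →* GL (Fin (r i)) ℤ_[ℓ]) : Prop :=
  n = a + ∑ i, r i ∧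
  ∃ (C : Matrix (Fin a) (Fin n) ℤ_[ℓ]) (D : ∀ i, Matrix (Fin (r i)) (Fin n) ℤ_[ℓ]),
    (∀ g, C * (ρ g : Matrix (Fin n) (Fin n) ℤ_[ℓ]) =
      (α g : Matrix (Fin a) (Fin a) ℤ_[ℓ]) * C) ∧
    (∀ i g, D i * (ρ g : Matrix (Fin n) (Fin n) ℤ_[ℓ]) =
      (β i g : Matrix (Fin (r i)) (Fin (r i)) ℤ_[ℓ]) * D i) ∧
    ∀ x : Fin n → ℤ_[ℓ], C.mulVec x = 0 → (∀ i, (D i).mulVec x = 0) → x = 0

theorem ulat_of_sum {ρ : G →* GL (Fin n) ℤ_[ℓ]} {α : G →* GL (Fin a) ℤ_[ℓ]}
    {β : ∀ i, G →* GL (Fin (r i)) ℤ_[ℓ]} (hα : ULat α) (hβ : ∀ i, ULat (β i))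
    (hs : ∀ i, Sep (MonoidAlgebra ℤ_[ℓ] G) (Lt α) (Lt (β i)))
    (hs' : ∀ i j, i ≠ j → Sep (MonoidAlgebra ℤ_[ℓ] G) (Lt (β i)) (Lt (β j)))
    (h : IsSum ρ α β) : ULat ρ := by
  classical
  obtain ⟨hn, C, D, hC, hD, hinj⟩ := h
  have hUL : UL (MonoidAlgebra ℤ_[ℓ] G) ℓ (Lt α × ∀ i, Lt (β i)) :=
    (ul_of_ulat hα).prod (UL.pi k _ (fun i => ul_of_ulat (hβ i)) hs') (Sep.pi k _ hs)
  let Φ : Lt ρ →ₗ[MonoidAlgebra ℤ_[ℓ] G] (Lt α × ∀ i, Lt (β i)) :=
    (hom C hC).prod (LinearMap.pi fun i => hom (D i) (hD i))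
  have hΦ : Function.Injective Φ := by
    rw [← LinearMap.ker_eq_bot, LinearMap.ker_eq_bot']
    intro x hx
    have h1 : hom C hC x = 0 := congrArg Prod.fst hx
    have h2 : ∀ i, hom (D i) (hD i) x = 0 := fun i => congrFun (congrArg Prod.snd hx) i
    apply (tv ρ).injective
    rw [map_zero]
    refine hinj _ ?_ fun i => ?_
    · rw [← hom_apply C hC, h1, map_zero]
    · rw [← hom_apply (D i) (hD i), h2 i, map_zero]
  have hrk : finrank ℤ_[ℓ] (Lt α × ∀ i, Lt (β i)) = n := by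
    rw [Module.finrank_prod, Module.finrank_pi_fintype, finrank_Lt, hn]
    congr 1
    exact Finset.sum_congr rfl fun i _ => finrank_Lt (β i)
  have hfull : ∀ {ρ' : G →* GL (Fin n) ℤ_[ℓ]}
      (Ψ : Lt ρ' →ₗ[MonoidAlgebra ℤ_[ℓ] G] (Lt α × ∀ i, Lt (β i))), Function.Injective Ψ →
      Full (MonoidAlgebra ℤ_[ℓ] G) ℓ (LinearMap.range Ψ) := by
    intro ρ' Ψ hΨ
    obtain ⟨k, hk⟩ := full_range (Ψ.restrictScalars ℤ_[ℓ]) hΨ (finrank_Lt ρ') hrk
    exact ⟨k, fun y => by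
      obtain ⟨x, hx⟩ := hk y
      exact ⟨x, hx⟩⟩
  rintro ρ' ⟨B, hB, hBρ⟩
  have hB' : ∀ g, B * (ρ' g : Matrix (Fin n) (Fin n) ℤ_[ℓ]) =
      (ρ g : Matrix (Fin n) (Fin n) ℤ_[ℓ]) * B := fun g => (hBρ g).symm
  have hBinj : Function.Injective (hom B hB') := by
    rw [← LinearMap.ker_eq_bot, LinearMap.ker_eq_bot']
    intro x hx
    apply (tv ρ').injective
    rw [map_zero]
    by_contra hne
    exact hB (Matrix.exists_mulVec_eq_zero_iff.1 ⟨tv ρ' x, hne, by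
      rw [← hom_apply B hB', hx, map_zero]⟩)
  have hΨ : Function.Injective (Φ.comp (hom B hB')) := hΦ.comp hBinj
  obtain ⟨e⟩ := hUL.unique Φ (Φ.comp (hom B hB')) hΦ hΨ (hfull _ hΦ) (hfull _ hΨ)
  exact gl_of_equiv e

end lattice

variable {F : SubFld ℚ} {n : ℕ}

/-- The systems `B` and `B'` have different Frobenius polynomials at the place of `F` below `P`,
for a Frobenius element `σ` of `p ∉ S` at `P` in the absolute Galois group of `F`. -/
def Different (S : Finset ℕ) {r r' : ℕ} (B : IntegralSystem F r) (B' : IntegralSystem F r') : Prop :=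
  ∃ p : ℕ, p.Prime ∧ p ∉ S ∧ ∃ P : Ideal ZBar, P.IsMaximal ∧ (p : ZBar) ∈ P ∧
    ∃ σ : F.fixingSubgroup, IsGeomFrob p P σ ∧
      B.poly (P.under (𝓞 F)) ≠ B'.poly (P.under (𝓞 F))

/-- The maximally degenerate systems of rank at least two. -/
structure Deg (S : Finset ℕ) (w : ℕ) {r : ℕ} (B : IntegralSystem F r) : Prop where
  two : 2 ≤ r
  pure : B.PureSystem S w
  degenerate : B.IsDegenerate S Set.univ

/-- The class of the systems `T` of rank `n`, pure of weight `w` with good reduction outside `S`, with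
semisimple `V_ℓ`, such that `V_ℓ` is for every `ℓ` the direct sum of the representation of a potentially
abelian semisimple system `A` and of those of maximally degenerate systems `B_i`, of rank at least two,
which are pairwise different. -/
structure Mixed (S : Finset ℕ) (w : ℕ) (T : IntegralSystem F n) : Prop where
  good : T.GoodSystem S w
  semisimple : Semisimple T
  sum : ∃ (a : ℕ) (A : IntegralSystem F a) (k : ℕ) (r : Fin k → ℕ)
    (B : ∀ i, IntegralSystem F (r i)), InClass S w A ∧ (∀ i, Deg S w (B i)) ∧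
      (∀ i j, i ≠ j → Different S (B i) (B j)) ∧
      ∀ (ℓ : ℕ) [Fact ℓ.Prime], IsSum (T.rho ℓ) (A.rho ℓ) (fun i => (B i).rho ℓ)

variable [hF : FiniteDimensional ℚ F]

/-- The properties of the maximally degenerate systems for almost all `ℓ`. -/
theorem deg_props {S : Finset ℕ} {w r : ℕ} {B : IntegralSystem F r} (hB : Deg S w B) :
    ∃ N : ℕ, ∀ (ℓ : ℕ) [Fact ℓ.Prime], N < ℓ → ULat (B.rho ℓ) ∧ ResIrr (B.rho ℓ) ∧
      ∃ (u : F.fixingSubgroup) (a : ℕ), bar (B.rho ℓ) u ^ (ℓ ^ a) = 1 ∧ bar (B.rho ℓ) u ≠ 1 := by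
  classical
  have hr : 0 < r := by have := hB.two; omega
  have hirr := irr_of_deg hr hB.pure hB.degenerate
  obtain ⟨N, hN⟩ := hirr.residual
  obtain ⟨N', hN'⟩ := hB.degenerate.residual
  refine ⟨max N N', fun ℓ hℓ hlt => ?_⟩
  rw [max_lt_iff] at hlt
  have hres : ResIrr (B.rho ℓ) := fun U hU => hN ℓ (Set.mem_univ _) hlt.1 U hU
  refine ⟨?_, hres, ?_⟩
  · rintro ρ' ⟨M, hM, hMρ⟩
    have hdet : (qm M).det ≠ 0 := by
      rw [qm_det]
      intro h0
      exact hM ((map_eq_zero_iff (algebraMap ℤ_[ℓ] ℚ_[ℓ]) (IsFractionRing.injective _ _)).1 h0)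
    obtain ⟨M', hM', hM'ρ⟩ := exists_primitive (ρ := B.rho ℓ) (ρ₁ := ρ') hr
      (Matrix.GeneralLinearGroup.mkOfDetNeZero (qm M) hdet) (fun g => by
        have h1 := congrArg qm (hMρ g)
        rw [map_mul, map_mul] at h1
        exact h1)
    exact lat_res (fun U hU => hN ℓ (Set.mem_univ _) hlt.1 U hU) hM' hM'ρ
  · obtain ⟨p, hpS, hp, hpℓ, hdeg⟩ := hN' ℓ (Set.mem_univ _) hlt.2
    obtain ⟨P, σ₀, hP, hpP, hσ₀⟩ := exists_geom hp
    obtain ⟨σ, u, -, -, hnil, hne⟩ := hdeg P hP hpP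
    have hbar : bar (B.rho ℓ) u = (B.res ℓ u : Matrix (Fin r) (Fin r) (ZMod ℓ)) := rfl
    obtain ⟨c, hc⟩ := hnil
    obtain ⟨a, ha⟩ : ∃ a : ℕ, c ≤ ℓ ^ a := by
      refine ⟨c, ?_⟩
      exact (Nat.lt_pow_self hℓ.out.one_lt).le
    refine ⟨u, a, ?_, ?_⟩
    · rw [hbar]
      have hnz : Nonempty (Fin r) := ⟨⟨0, hr⟩⟩
      have h1 : ((B.res ℓ u : Matrix (Fin r) (Fin r) (ZMod ℓ)) - 1) ^ (ℓ ^ a) = 0 := by
        rw [← Nat.sub_add_cancel ha, pow_add, hc, mul_zero]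
      rw [sub_pow_char_pow_of_commute _ _ (Commute.one_right _), one_pow, sub_eq_zero] at h1
      exact h1
    · rw [hbar]
      intro h1
      apply hne
      rw [h1, sub_self]
      have := hB.two
      exact zero_pow (by omega)

/-- **Uniqueness of the lattices.** -/
theorem unique_of_mixed {S : Finset ℕ} {w : ℕ} {T : IntegralSystem F n} (hT : Mixed S w T) :
    UniqueLattices T := by
  classical
  obtain ⟨a, A, k, r, B, hA, hB, hdiff, hsum⟩ := hT.sum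
  obtain ⟨NA, hNA⟩ := exists_bound hA
  choose NB hNB using fun i => deg_props (hB i)
  obtain ⟨H, hHo, hHc⟩ := hA.abelian
  have hfi : H.FiniteIndex := by
    have : Finite (F.fixingSubgroup ⧸ H) := Subgroup.quotient_finite_of_isOpen _ hHo
    exact Subgroup.finiteIndex_of_finite_quotient
  have hfc : H.normalCore.FiniteIndex := inferInstance
  -- different polynomials stay different modulo large primes
  have hD : ∀ i j : Fin k, ∃ N : ℕ, i ≠ j → ∀ (ℓ : ℕ) [Fact ℓ.Prime], N < ℓ →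
      ∃ σ : F.fixingSubgroup, (bar ((B i).rho ℓ) σ).charpoly ≠ (bar ((B j).rho ℓ) σ).charpoly := by
    intro i j
    by_cases hij : i = j
    · exact ⟨0, fun h => (h hij).elim⟩
    obtain ⟨p, hp, hpS, P, hP, hpP, σ, hσ, hne⟩ := hdiff i j hij
    obtain ⟨c, hc⟩ : ∃ c : ℕ, ((B i).poly (P.under (𝓞 F))).coeff c ≠
        ((B j).poly (P.under (𝓞 F))).coeff c := by
      by_contra hcon
      push Not at hcon
      exact hne (Polynomial.ext hcon)
    refine ⟨max p (((B i).poly (P.under (𝓞 F))).coeff c -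
      ((B j).poly (P.under (𝓞 F))).coeff c).natAbs, fun _ ℓ hℓ hlt => ⟨σ, fun heq => ?_⟩⟩
    rw [max_lt_iff] at hlt
    have hpℓ : ℓ ≠ p := by omega
    have hch : ∀ {s : ℕ} {Y : IntegralSystem F s}, Y.GoodSystem S w →
        (bar (Y.rho ℓ) σ).charpoly = (Y.poly (P.under (𝓞 F))).map (Int.castRingHom (ZMod ℓ)) := by
      intro s Y hY
      have h1 := charpoly_frob_rat hY hp hpS hpℓ hP hpP hσ
      have h2 : (Y.rho ℓ σ : Matrix (Fin s) (Fin s) ℤ_[ℓ]).charpoly =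
          (Y.poly (P.under (𝓞 F))).map (Int.castRingHom ℤ_[ℓ]) := by
        apply Polynomial.map_injective (algebraMap ℤ_[ℓ] ℚ_[ℓ]) (IsFractionRing.injective _ _)
        rw [Polynomial.map_map, RingHom.ext_int ((algebraMap ℤ_[ℓ] ℚ_[ℓ]).comp
          (Int.castRingHom ℤ_[ℓ])) (Int.castRingHom ℚ_[ℓ]), ← h1, ← Matrix.charpoly_map]
        rfl
      rw [bar_apply, Matrix.charpoly_map, h2, Polynomial.map_map,
        RingHom.ext_int ((PadicInt.toZMod (p := ℓ)).comp (Int.castRingHom ℤ_[ℓ]))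
          (Int.castRingHom (ZMod ℓ))]
    rw [hch (hB i).pure.toGoodSystem, hch (hB j).pure.toGoodSystem] at heq
    have h3 := congrArg (fun q => q.coeff c) heq
    simp only [Polynomial.coeff_map, eq_intCast] at h3
    rw [← sub_eq_zero, ← Int.cast_sub, ZMod.intCast_zmod_eq_zero_iff_dvd] at h3
    have h4 := Int.natAbs_dvd_natAbs.2 h3
    rw [Int.natAbs_natCast] at h4
    have h5 := Nat.le_of_dvd (Int.natAbs_pos.2 (sub_ne_zero.2 hc)) h4
    omega
  choose ND hND using hD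
  refine ⟨NA + ∑ i, NB i + ∑ i, ∑ j, ND i j + H.normalCore.index, fun ℓ hℓ hlt ρ' hρ' => ?_⟩
  have hNBi : ∀ i, NB i < ℓ := fun i => by
    have := Finset.single_le_sum (f := NB) (fun _ _ => Nat.zero_le _) (Finset.mem_univ i)
    omega
  have hNDi : ∀ i j, ND i j < ℓ := fun i j => by
    have h1 := Finset.single_le_sum (f := ND i) (fun _ _ => Nat.zero_le _) (Finset.mem_univ j)
    have h2 := Finset.single_le_sum (f := fun i => ∑ j, ND i j) (fun _ _ => Nat.zero_le _)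
      (Finset.mem_univ i)
    omega
  have hα : ULat (A.rho ℓ) := fun ρ' ⟨M, hM, hMρ⟩ => hNA ℓ (by omega) ρ' M hM hMρ
  have hidx : ¬ ℓ ∣ H.normalCore.index := fun h => by
    have := Nat.le_of_dvd (Nat.pos_of_ne_zero hfc.index_ne_zero) h
    omega
  have hU : ULat (T.rho ℓ) := by
    refine ulat_of_sum hα (fun i => (hNB i ℓ (hNBi i)).1) (fun i => ?_) (fun i j hij => ?_) (hsum ℓ)
    · obtain ⟨-, h2, u, b, hu, hu1⟩ := hNB i ℓ (hNBi i)
      exact sep_ab h2 H.normalCore hidx (fun g hg h hh => hHc ℓ g (H.normalCore_le hg) h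
        (H.normalCore_le hh)) u b hu hu1
    · obtain ⟨σ, hσ⟩ := hND i j hij ℓ (hNDi i j)
      exact sep_of_charpoly (hNB i ℓ (hNBi i)).2.1 (hNB j ℓ (hNBi j)).2.1 σ hσ
  exact hU ρ' hρ'

/-- **Finiteness.** -/
theorem main (hn : 0 < n) (w : ℕ) (S : Finset ℕ) :
    FinitelyMany (Mixed (F := F) (n := n) S w) ∧
      ∀ T : IntegralSystem F n, Mixed S w T → UniqueLattices T :=
  ⟨finite_of_unique hn w S (fun _ hT => hT.good) (fun _ hT => hT.semisimple)
    (fun _ hT => unique_of_mixed hT), fun _ hT => unique_of_mixed hT⟩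

end Pool.Agent.Run7.h879.DS
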