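import Pool.Agent.Run7.h879.DS.Sum
import Pool.Agent.Run7.h879.DS.Com
import Pool.Agent.R390.SF.Main

/-!
# Finiteness of the sums of a potentially abelian system and of maximally degenerate systems,
with multiplicities
-/

set_option autoImplicit false
set_option linter.unusedSectionVars false

namespace Pool.Agent.Run7.h879.DS

open Module Matrix Polynomial NumberField Pool.Agent.Y800 Pool.Agent.R390.SF
open Pool.Agent.R390.SF.IntegralSystem Pool.Agent.Run7.h306.AB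

section lattice

variable {G : Type} [Group G] {ℓ : ℕ} [hℓ : Fact ℓ.Prime] {n a k : ℕ} {r : Fin k → ℕ}

theorem ulat_of_sum' {ρ : G →* GL (Fin n) ℤ_[ℓ]} {α : G →* GL (Fin a) ℤ_[ℓ]}
    {β : ∀ i, G →* GL (Fin (r i)) ℤ_[ℓ]} (hα : ULat α) (hβ : ∀ i, ULat (β i))
    (hs : ∀ i, Lift (MonoidAlgebra ℤ_[ℓ] G) ℓ (Lt α) (Lt (β i)))
    (hs' : ∀ i j, Lift (MonoidAlgebra ℤ_[ℓ] G) ℓ (Lt (β i)) (Lt (β j)))
    (h : IsSum ρ α β) : ULat ρ := by
  classical
  obtain ⟨hn, C, D, hC, hD, hinj⟩ := h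
  have hUL : UL (MonoidAlgebra ℤ_[ℓ] G) ℓ (Lt α × ∀ i, Lt (β i)) :=
    (ul_of_ulat hα).pi' k _ (fun i => ul_of_ulat (hβ i)) hs hs'
  let Φ : Lt ρ →ₗ[MonoidAlgebra ℤ_[ℓ] G] (Lt α × ∀ i, Lt (β i)) :=
    (hom C hC).prod (LinearMap.pi fun i => hom (D i) (hD i))
  have hΦ : Function.Injective Φ := by
    rw [← LinearMap.ker_eq_bot, LinearMap.ker_eq_bot']
    intro x hx
    have h1 : hom C hC x = 0 := congrArg Prod.fst hx
    have h2 : ∀ i, hom (D i) (hD i) x = 0 := fun i => congrFun (congrArg Prod.snd hx) i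
    apply (tv ρ).injective
    rw [map_zero]
    refine hinj _ ?_ fun i => ?_
    · rw [← hom_apply C hC, h1, map_zero]
    · rw [← hom_apply (D i) (hD i), h2 i, map_zero]
  have hrk : finrank ℤ_[ℓ] (Lt α × ∀ i, Lt (β i)) = n := by
    rw [Module.finrank_prod, Module.finrank_pi_fintype, finrank_Lt, hn]
    congr 1
    exact Finset.sum_congr rfl fun i _ => finrank_Lt (β i)
  have hfull : ∀ {ρ' : G →* GL (Fin n) ℤ_[ℓ]}
      (Ψ : Lt ρ' →ₗ[MonoidAlgebra ℤ_[ℓ] G] (Lt α × ∀ i, Lt (β i))), Function.Injective Ψ →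
      Full (MonoidAlgebra ℤ_[ℓ] G) ℓ (LinearMap.range Ψ) := by
    intro ρ' Ψ hΨ
    obtain ⟨k, hk⟩ := full_range (Ψ.restrictScalars ℤ_[ℓ]) hΨ (finrank_Lt ρ') hrk
    exact ⟨k, fun y => by
      obtain ⟨x, hx⟩ := hk y
      exact ⟨x, hx⟩⟩
  rintro ρ' ⟨B, hB, hBρ⟩
  have hB' : ∀ g, B * (ρ' g : Matrix (Fin n) (Fin n) ℤ_[ℓ]) =
      (ρ g : Matrix (Fin n) (Fin n) ℤ_[ℓ]) * B := fun g => (hBρ g).symm
  have hBinj : Function.Injective (hom B hB') := by
    rw [← LinearMap.ker_eq_bot, LinearMap.ker_eq_bot']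
    intro x hx
    apply (tv ρ').injective
    rw [map_zero]
    by_contra hne
    exact hB (Matrix.exists_mulVec_eq_zero_iff.1 ⟨tv ρ' x, hne, by
      rw [← hom_apply B hB', hx, map_zero]⟩)
  have hΨ : Function.Injective (Φ.comp (hom B hB')) := hΦ.comp hBinj
  obtain ⟨e⟩ := hUL.unique Φ (Φ.comp (hom B hB')) hΦ hΨ (hfull _ hΦ) (hfull _ hΨ)
  exact gl_of_equiv e

theorem equiv_of_gl {ρ ρ' : G →* GL (Fin n) ℤ_[ℓ]} (A : GL (Fin n) ℤ_[ℓ])
    (h : ∀ g, ρ' g = A * ρ g * A⁻¹) : Nonempty (Lt ρ ≃ₗ[MonoidAlgebra ℤ_[ℓ] G] Lt ρ') := by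
  have h1 : ∀ g, (A : Matrix (Fin n) (Fin n) ℤ_[ℓ]) * (ρ g : Matrix (Fin n) (Fin n) ℤ_[ℓ]) =
      (ρ' g : Matrix (Fin n) (Fin n) ℤ_[ℓ]) * (A : Matrix (Fin n) (Fin n) ℤ_[ℓ]) := by
    intro g
    have h2 : A * ρ g = ρ' g * A := by rw [h g]; group
    have h3 := congrArg Units.val h2
    rwa [Units.val_mul, Units.val_mul] at h3
  have hAinv : (A : Matrix (Fin n) (Fin n) ℤ_[ℓ]) * ((A⁻¹ : GL (Fin n) ℤ_[ℓ]) :
      Matrix (Fin n) (Fin n) ℤ_[ℓ]) = 1 := by
    rw [← Units.val_mul, mul_inv_cancel, Units.val_one]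
  have hAinv' : ((A⁻¹ : GL (Fin n) ℤ_[ℓ]) : Matrix (Fin n) (Fin n) ℤ_[ℓ]) *
      (A : Matrix (Fin n) (Fin n) ℤ_[ℓ]) = 1 := by
    rw [← Units.val_mul, inv_mul_cancel, Units.val_one]
  refine ⟨LinearEquiv.ofBijective (hom (A : Matrix (Fin n) (Fin n) ℤ_[ℓ]) h1) ⟨?_, ?_⟩⟩
  · intro x y hxy
    have h2 := congrArg (fun z => ((A⁻¹ : GL (Fin n) ℤ_[ℓ]) :
      Matrix (Fin n) (Fin n) ℤ_[ℓ]).mulVec (tv ρ' z)) hxy
    simp only [hom_apply, Matrix.mulVec_mulVec, hAinv', Matrix.one_mulVec] at h2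
    exact (tv ρ).injective h2
  · intro y
    refine ⟨(tv ρ).symm (((A⁻¹ : GL (Fin n) ℤ_[ℓ]) : Matrix (Fin n) (Fin n) ℤ_[ℓ]).mulVec
      (tv ρ' y)), ?_⟩
    apply (tv ρ').injective
    rw [hom_apply, LinearEquiv.apply_symm_apply, Matrix.mulVec_mulVec, hAinv, Matrix.one_mulVec]

end lattice

variable {F : SubFld ℚ} {n : ℕ}

/-- The class of the systems `T` of rank `n`, pure of weight `w` with good reduction outside `S`, with
semisimple `V_ℓ`, such that `V_ℓ` is for every `ℓ` the direct sum of the representation of a potentially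
abelian semisimple system `A` and of those of maximally degenerate systems `B_i`, of rank at least two. -/
structure SumClass (S : Finset ℕ) (w : ℕ) (T : IntegralSystem F n) : Prop where
  good : T.GoodSystem S w
  semisimple : Semisimple T
  sum : ∃ (a : ℕ) (A : IntegralSystem F a) (k : ℕ) (r : Fin k → ℕ)
    (B : ∀ i, IntegralSystem F (r i)), InClass S w A ∧ (∀ i, Deg S w (B i)) ∧
      ∀ (ℓ : ℕ) [Fact ℓ.Prime], IsSum (T.rho ℓ) (A.rho ℓ) (fun i => (B i).rho ℓ)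

variable [hF : FiniteDimensional ℚ F]

theorem deg_com {S : Finset ℕ} {w r : ℕ} {B : IntegralSystem F r} (hB : Deg S w B) :
    ∃ N : ℕ, ∀ (ℓ : ℕ) [Fact ℓ.Prime], N < ℓ → ResCom (B.rho ℓ) := by
  have hr : 0 < r := by have := hB.two; omega
  have hirr := irr_of_deg hr hB.pure hB.degenerate
  obtain ⟨N, hN⟩ := hirr.residual
  obtain ⟨N', hN'⟩ := hB.degenerate.residual
  refine ⟨max N N', fun ℓ hℓ hlt => ?_⟩
  rw [max_lt_iff] at hlt
  obtain ⟨p, hpS, hp, hpℓ, hdeg⟩ := hN' ℓ (Set.mem_univ _) hlt.2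
  obtain ⟨P, σ₀, hP, hpP, hσ₀⟩ := exists_geom hp
  obtain ⟨σ, u, -, -, hnil, hne⟩ := hdeg P hP hpP
  exact resCom hr (fun U hU => hN ℓ (Set.mem_univ _) hlt.1 U hU) u hnil hne

/-- **Two maximally degenerate systems.** -/
theorem lift_pair {S : Finset ℕ} {w r r' : ℕ} {B : IntegralSystem F r} {B' : IntegralSystem F r'}
    (hB : Deg S w B) (hB' : Deg S w B') : ∃ N : ℕ, ∀ (ℓ : ℕ) [Fact ℓ.Prime], N < ℓ →
      Lift (MonoidAlgebra ℤ_[ℓ] F.fixingSubgroup) ℓ (Lt (B.rho ℓ)) (Lt (B'.rho ℓ)) := by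
  classical
  obtain ⟨N₁, hN₁⟩ := deg_props hB
  obtain ⟨N₂, hN₂⟩ := deg_props hB'
  obtain ⟨N₃, hN₃⟩ := deg_com hB'
  by_cases hd : Different S B B'
  · obtain ⟨p, hp, hpS, P, hP, hpP, σ, hσ, hne⟩ := hd
    obtain ⟨c, hc⟩ : ∃ c : ℕ, (B.poly (P.under (𝓞 F))).coeff c ≠
        (B'.poly (P.under (𝓞 F))).coeff c := by
      by_contra hcon
      push Not at hcon
      exact hne (Polynomial.ext hcon)
    refine ⟨N₁ + N₂ + p + ((B.poly (P.under (𝓞 F))).coeff c -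
      (B'.poly (P.under (𝓞 F))).coeff c).natAbs, fun ℓ hℓ hlt => ?_⟩
    have hpℓ : ℓ ≠ p := by omega
    have hch : ∀ {s : ℕ} {Y : IntegralSystem F s}, Y.GoodSystem S w →
        (bar (Y.rho ℓ) σ).charpoly = (Y.poly (P.under (𝓞 F))).map (Int.castRingHom (ZMod ℓ)) := by
      intro s Y hY
      have h1 := charpoly_frob_rat hY hp hpS hpℓ hP hpP hσ
      have h2 : (Y.rho ℓ σ : Matrix (Fin s) (Fin s) ℤ_[ℓ]).charpoly =
          (Y.poly (P.under (𝓞 F))).map (Int.castRingHom ℤ_[ℓ]) := by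
        apply Polynomial.map_injective (algebraMap ℤ_[ℓ] ℚ_[ℓ]) (IsFractionRing.injective _ _)
        rw [Polynomial.map_map, RingHom.ext_int ((algebraMap ℤ_[ℓ] ℚ_[ℓ]).comp
          (Int.castRingHom ℤ_[ℓ])) (Int.castRingHom ℚ_[ℓ]), ← h1, ← Matrix.charpoly_map]
        rfl
      rw [bar_apply, Matrix.charpoly_map, h2, Polynomial.map_map,
        RingHom.ext_int ((PadicInt.toZMod (p := ℓ)).comp (Int.castRingHom ℤ_[ℓ]))
          (Int.castRingHom (ZMod ℓ))]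
    have hne' : (bar (B.rho ℓ) σ).charpoly ≠ (bar (B'.rho ℓ) σ).charpoly := by
      intro heq
      rw [hch hB.pure.toGoodSystem, hch hB'.pure.toGoodSystem] at heq
      have h3 := congrArg (fun q => q.coeff c) heq
      simp only [Polynomial.coeff_map, eq_intCast] at h3
      rw [← sub_eq_zero, ← Int.cast_sub, ZMod.intCast_zmod_eq_zero_iff_dvd] at h3
      have h4 := Int.natAbs_dvd_natAbs.2 h3
      rw [Int.natAbs_natCast] at h4
      have h5 := Nat.le_of_dvd (Int.natAbs_pos.2 (sub_ne_zero.2 hc)) h4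
      omega
    exact Lift.of_sep (ul_of_ulat (hN₂ ℓ (by omega)).1)
      (sep_of_charpoly (hN₁ ℓ (by omega)).2.1 (hN₂ ℓ (by omega)).2.1 σ hne')
  · -- the same polynomials: the systems are isomorphic
    have hpoly : ∀ p : ℕ, p.Prime → p ∉ S → ∀ P : Ideal ZBar, P.IsMaximal → (p : ZBar) ∈ P →
        ∀ σ : F.fixingSubgroup, IsGeomFrob p P σ →
          B.poly (P.under (𝓞 F)) = B'.poly (P.under (𝓞 F)) := by
      intro p hp hpS P hP hpP σ hσ
      by_contra hne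
      exact hd ⟨p, hp, hpS, P, hP, hpP, σ, hσ, hne⟩
    obtain ⟨x, hx⟩ := frobs_nonempty (F := F) S (H := ⊤) isOpen_univ
    have hrr : r = r' := by
      have h1 := (poly_good hB.pure.toGoodSystem hx).2
      have h2 := (poly_good hB'.pure.toGoodSystem hx).2
      obtain ⟨g1, g2, g3, g4, g5, -⟩ := hx
      rw [hpoly _ g1 g2 _ g3 g4 _ g5, h2] at h1
      exact h1.symm
    subst hrr
    have hr : 0 < r := by have := hB.two; omega
    have hirr := irr_of_deg hr hB.pure hB.degenerate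
    have hirr' := irr_of_deg hr hB'.pure hB'.degenerate
    obtain ⟨N₄, hN₄⟩ := hirr'.residual
    refine ⟨N₁ + N₂ + N₃ + N₄, fun ℓ hℓ hlt => ?_⟩
    have htr : ∀ g, (B.rat ℓ g : Matrix (Fin r) (Fin r) ℚ_[ℓ]).trace =
        (B'.rat ℓ g : Matrix (Fin r) (Fin r) ℚ_[ℓ]).trace := by
      intro g
      refine closed_univ' {g | (B.rat ℓ g : Matrix (Fin r) (Fin r) ℚ_[ℓ]).trace =
        (B'.rat ℓ g : Matrix (Fin r) (Fin r) ℚ_[ℓ]).trace}
        (isClosed_eq (continuous_trace_rat hB.pure.toGoodSystem ℓ)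
          (continuous_trace_rat hB'.pure.toGoodSystem ℓ)) (S ∪ {ℓ}) ?_ g
      intro p hp hpS P hP hpP σ hσ
      rw [Finset.mem_union, not_or, Finset.mem_singleton] at hpS
      have h1 := trace_frob_rat hr hB.pure.toGoodSystem hp hpS.1 (Ne.symm hpS.2) hP hpP hσ
      have h2 := trace_frob_rat hr hB'.pure.toGoodSystem hp hpS.1 (Ne.symm hpS.2) hP hpP hσ
      show (B.rat ℓ σ : Matrix (Fin r) (Fin r) ℚ_[ℓ]).trace =
        (B'.rat ℓ σ : Matrix (Fin r) (Fin r) ℚ_[ℓ]).trace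
      rw [h1, h2, hpoly p hp hpS.1 P hP hpP σ hσ]
    obtain ⟨M, hM, hMρ⟩ := exists_B hr hirr' hirr ℓ (Set.mem_univ _) htr
    obtain ⟨A, hA⟩ := lat_res (fun U hU => hN₄ ℓ (Set.mem_univ _) (by omega) U hU) hM hMρ
    obtain ⟨e⟩ := equiv_of_gl A hA
    exact (lift_self (hN₂ ℓ (by omega)).2.1 (hN₃ ℓ (by omega))).congr e

/-- **Uniqueness of the lattices.** -/
theorem unique_of_sum {S : Finset ℕ} {w : ℕ} {T : IntegralSystem F n} (hT : SumClass S w T) :
    UniqueLattices T := by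
  classical
  obtain ⟨a, A, k, r, B, hA, hB, hsum⟩ := hT.sum
  obtain ⟨NA, hNA⟩ := exists_bound hA
  choose NB hNB using fun i => deg_props (hB i)
  choose ND hND using fun i j => lift_pair (hB i) (hB j)
  obtain ⟨H, hHo, hHc⟩ := hA.abelian
  have hfi : H.FiniteIndex := by
    have : Finite (F.fixingSubgroup ⧸ H) := Subgroup.quotient_finite_of_isOpen _ hHo
    exact Subgroup.finiteIndex_of_finite_quotient
  have hfc : H.normalCore.FiniteIndex := inferInstance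
  refine ⟨NA + ∑ i, NB i + ∑ i, ∑ j, ND i j + H.normalCore.index, fun ℓ hℓ hlt ρ' hρ' => ?_⟩
  have hNBi : ∀ i, NB i < ℓ := fun i => by
    have := Finset.single_le_sum (f := NB) (fun _ _ => Nat.zero_le _) (Finset.mem_univ i)
    omega
  have hNDi : ∀ i j, ND i j < ℓ := fun i j => by
    have h1 := Finset.single_le_sum (f := ND i) (fun _ _ => Nat.zero_le _) (Finset.mem_univ j)
    have h2 := Finset.single_le_sum (f := fun i => ∑ j, ND i j) (fun _ _ => Nat.zero_le _)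
      (Finset.mem_univ i)
    omega
  have hα : ULat (A.rho ℓ) := fun ρ' ⟨M, hM, hMρ⟩ => hNA ℓ (by omega) ρ' M hM hMρ
  have hidx : ¬ ℓ ∣ H.normalCore.index := fun h => by
    have := Nat.le_of_dvd (Nat.pos_of_ne_zero hfc.index_ne_zero) h
    omega
  have hU : ULat (T.rho ℓ) := by
    refine ulat_of_sum' hα (fun i => (hNB i ℓ (hNBi i)).1) (fun i => ?_)
      (fun i j => hND i j ℓ (hNDi i j)) (hsum ℓ)
    obtain ⟨h1, h2, u, b, hu, hu1⟩ := hNB i ℓ (hNBi i)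
    exact Lift.of_sep (ul_of_ulat h1) (sep_ab h2 H.normalCore hidx
      (fun g hg h hh => hHc ℓ g (H.normalCore_le hg) h (H.normalCore_le hh)) u b hu hu1)
  exact hU ρ' hρ'

/-- **Finiteness.** -/
theorem main2 (hn : 0 < n) (w : ℕ) (S : Finset ℕ) :
    FinitelyMany (SumClass (F := F) (n := n) S w) ∧
      ∀ T : IntegralSystem F n, SumClass S w T → UniqueLattices T :=
  ⟨finite_of_unique hn w S (fun _ hT => hT.good) (fun _ hT => hT.semisimple)
    (fun _ hT => unique_of_sum hT), fun _ hT => unique_of_sum hT⟩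

end Pool.Agent.Run7.h879.DS
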