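import Pool.Agent.Run7.h879.DS.Sum2

/-!
# Finiteness of the sums of a potentially abelian system and of systems with big residual images
-/

set_option autoImplicit false
set_option linter.unusedSectionVars false

namespace Pool.Agent.Run7.h879.DS

open Module Matrix Polynomial NumberField Pool.Agent.Y800 Pool.Agent.R390.SF
open Pool.Agent.R390.SF.IntegralSystem Pool.Agent.Run7.h306.AB

variable {F : SubFld ℚ} {n : ℕ}

/-- The residual representation at `ℓ` is big: it is absolutely irreducible (its commutant consists of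
scalars) and contains an element `≠ 1` whose order is a power of `ℓ` (a unipotent element). -/
def BigAt {r : ℕ} (B : IntegralSystem F r) (ℓ : ℕ) [Fact ℓ.Prime] : Prop :=
  (∀ M : Matrix (Fin r) (Fin r) (ZMod ℓ), (∀ g : F.fixingSubgroup,
      M * (B.res ℓ g : Matrix (Fin r) (Fin r) (ZMod ℓ)) =
        (B.res ℓ g : Matrix (Fin r) (Fin r) (ZMod ℓ)) * M) → ∃ c : ZMod ℓ, M = c • 1) ∧
    ∃ (u : F.fixingSubgroup) (a : ℕ), B.res ℓ u ^ (ℓ ^ a) = 1 ∧ B.res ℓ u ≠ 1

/-- The systems with good reduction outside `S`, pure of weight `w`, with irreducible `V_ℓ` for all `ℓ`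
and irreducible and big `T_ℓ / ℓ` for almost all `ℓ`. -/
structure Big (S : Finset ℕ) (w : ℕ) {r : ℕ} (B : IntegralSystem F r) : Prop where
  pos : 0 < r
  good : B.GoodSystem S w
  irreducible : B.IsIrreducible Set.univ
  big : ∃ N : ℕ, ∀ (ℓ : ℕ) [Fact ℓ.Prime], N < ℓ → BigAt B ℓ

/-- The class of the systems `T` of rank `n`, pure of weight `w` with good reduction outside `S`, with
semisimple `V_ℓ`, such that `V_ℓ` is for every `ℓ` the direct sum of the representation of a potentially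
abelian semisimple system `A` and of those of systems `B_i` with big residual images. -/
structure BigSum (S : Finset ℕ) (w : ℕ) (T : IntegralSystem F n) : Prop where
  good : T.GoodSystem S w
  semisimple : Semisimple T
  sum : ∃ (a : ℕ) (A : IntegralSystem F a) (k : ℕ) (r : Fin k → ℕ)
    (B : ∀ i, IntegralSystem F (r i)), InClass S w A ∧ (∀ i, Big S w (B i)) ∧
      ∀ (ℓ : ℕ) [Fact ℓ.Prime], IsSum (T.rho ℓ) (A.rho ℓ) (fun i => (B i).rho ℓ)

variable [hF : FiniteDimensional ℚ F]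

/-- The maximally degenerate systems of rank at least two are big. -/
theorem big_of_deg {S : Finset ℕ} {w r : ℕ} {B : IntegralSystem F r} (hr2 : 2 ≤ r)
    (hP : B.PureSystem S w) (hD : B.IsDegenerate S Set.univ) : Big S w B := by
  have hr : 0 < r := by omega
  have hirr := irr_of_deg hr hP hD
  refine ⟨hr, hP.toGoodSystem, hirr, ?_⟩
  obtain ⟨N, hN⟩ := deg_props (⟨hr2, hP, hD⟩ : Deg S w B)
  obtain ⟨N', hN'⟩ := deg_com (⟨hr2, hP, hD⟩ : Deg S w B)
  refine ⟨max N N', fun ℓ hℓ hlt => ?_⟩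
  rw [max_lt_iff] at hlt
  obtain ⟨-, -, u, a, hu, hu1⟩ := hN ℓ hlt.1
  refine ⟨fun M hM => hN' ℓ hlt.2 M hM, u, a, ?_, fun h => hu1 ?_⟩
  · apply Units.ext
    rw [Units.val_pow_eq_pow_val, Units.val_one]
    exact hu
  · have h1 := congrArg Units.val h
    rw [Units.val_one] at h1
    exact h1

theorem big_props {S : Finset ℕ} {w r : ℕ} {B : IntegralSystem F r} (hB : Big S w B) :
    ∃ N : ℕ, ∀ (ℓ : ℕ) [Fact ℓ.Prime], N < ℓ → ULat (B.rho ℓ) ∧ ResIrr (B.rho ℓ) ∧
      ResCom (B.rho ℓ) ∧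
      ∃ (u : F.fixingSubgroup) (a : ℕ), bar (B.rho ℓ) u ^ (ℓ ^ a) = 1 ∧ bar (B.rho ℓ) u ≠ 1 := by
  classical
  have hr := hB.pos
  obtain ⟨N, hN⟩ := hB.irreducible.residual
  obtain ⟨N', hN'⟩ := hB.big
  refine ⟨max N N', fun ℓ hℓ hlt => ?_⟩
  rw [max_lt_iff] at hlt
  have hres : ResIrr (B.rho ℓ) := fun U hU => hN ℓ (Set.mem_univ _) hlt.1 U hU
  obtain ⟨hcom, u, a, hu, hu1⟩ := hN' ℓ hlt.2
  refine ⟨?_, hres, fun M hM => hcom M hM, u, a, ?_, fun h => hu1 ?_⟩
  · rintro ρ' ⟨M, hM, hMρ⟩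
    have hdet : (qm M).det ≠ 0 := by
      rw [qm_det]
      intro h0
      exact hM ((map_eq_zero_iff (algebraMap ℤ_[ℓ] ℚ_[ℓ]) (IsFractionRing.injective _ _)).1 h0)
    obtain ⟨M', hM', hM'ρ⟩ := exists_primitive (ρ := B.rho ℓ) (ρ₁ := ρ') hr
      (Matrix.GeneralLinearGroup.mkOfDetNeZero (qm M) hdet) (fun g => by
        have h1 := congrArg qm (hMρ g)
        rw [map_mul, map_mul] at h1
        exact h1)
    exact lat_res (fun U hU => hN ℓ (Set.mem_univ _) hlt.1 U hU) hM' hM'ρ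
  · have h1 := congrArg Units.val hu
    rw [Units.val_pow_eq_pow_val, Units.val_one] at h1
    exact h1
  · apply Units.ext
    rw [Units.val_one]
    exact h

/-- **Two big systems.** -/
theorem lift_pair' {S : Finset ℕ} {w r r' : ℕ} {B : IntegralSystem F r} {B' : IntegralSystem F r'}
    (hB : Big S w B) (hB' : Big S w B') : ∃ N : ℕ, ∀ (ℓ : ℕ) [Fact ℓ.Prime], N < ℓ →
      Lift (MonoidAlgebra ℤ_[ℓ] F.fixingSubgroup) ℓ (Lt (B.rho ℓ)) (Lt (B'.rho ℓ)) := by
  classical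
  obtain ⟨N₁, hN₁⟩ := big_props hB
  obtain ⟨N₂, hN₂⟩ := big_props hB'
  by_cases hd : Different S B B'
  · obtain ⟨p, hp, hpS, P, hP, hpP, σ, hσ, hne⟩ := hd
    obtain ⟨c, hc⟩ : ∃ c : ℕ, (B.poly (P.under (𝓞 F))).coeff c ≠
        (B'.poly (P.under (𝓞 F))).coeff c := by
      by_contra hcon
      push Not at hcon
      exact hne (Polynomial.ext hcon)
    refine ⟨N₁ + N₂ + p + ((B.poly (P.under (𝓞 F))).coeff c -
      (B'.poly (P.under (𝓞 F))).coeff c).natAbs, fun ℓ hℓ hlt => ?_⟩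
    have hpℓ : ℓ ≠ p := by omega
    have hch : ∀ {s : ℕ} {Y : IntegralSystem F s}, Y.GoodSystem S w →
        (bar (Y.rho ℓ) σ).charpoly = (Y.poly (P.under (𝓞 F))).map (Int.castRingHom (ZMod ℓ)) := by
      intro s Y hY
      have h1 := charpoly_frob_rat hY hp hpS hpℓ hP hpP hσ
      have h2 : (Y.rho ℓ σ : Matrix (Fin s) (Fin s) ℤ_[ℓ]).charpoly =
          (Y.poly (P.under (𝓞 F))).map (Int.castRingHom ℤ_[ℓ]) := by
        apply Polynomial.map_injective (algebraMap ℤ_[ℓ] ℚ_[ℓ]) (IsFractionRing.injective _ _)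
        rw [Polynomial.map_map, RingHom.ext_int ((algebraMap ℤ_[ℓ] ℚ_[ℓ]).comp
          (Int.castRingHom ℤ_[ℓ])) (Int.castRingHom ℚ_[ℓ]), ← h1, ← Matrix.charpoly_map]
        rfl
      rw [bar_apply, Matrix.charpoly_map, h2, Polynomial.map_map,
        RingHom.ext_int ((PadicInt.toZMod (p := ℓ)).comp (Int.castRingHom ℤ_[ℓ]))
          (Int.castRingHom (ZMod ℓ))]
    have hne' : (bar (B.rho ℓ) σ).charpoly ≠ (bar (B'.rho ℓ) σ).charpoly := by
      intro heq
      rw [hch hB.good, hch hB'.good] at heq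
      have h3 := congrArg (fun q => q.coeff c) heq
      simp only [Polynomial.coeff_map, eq_intCast] at h3
      rw [← sub_eq_zero, ← Int.cast_sub, ZMod.intCast_zmod_eq_zero_iff_dvd] at h3
      have h4 := Int.natAbs_dvd_natAbs.2 h3
      rw [Int.natAbs_natCast] at h4
      have h5 := Nat.le_of_dvd (Int.natAbs_pos.2 (sub_ne_zero.2 hc)) h4
      omega
    exact Lift.of_sep (ul_of_ulat (hN₂ ℓ (by omega)).1)
      (sep_of_charpoly (hN₁ ℓ (by omega)).2.1 (hN₂ ℓ (by omega)).2.1 σ hne')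
  · -- the same polynomials: the systems are isomorphic
    have hpoly : ∀ p : ℕ, p.Prime → p ∉ S → ∀ P : Ideal ZBar, P.IsMaximal → (p : ZBar) ∈ P →
        ∀ σ : F.fixingSubgroup, IsGeomFrob p P σ →
          B.poly (P.under (𝓞 F)) = B'.poly (P.under (𝓞 F)) := by
      intro p hp hpS P hP hpP σ hσ
      by_contra hne
      exact hd ⟨p, hp, hpS, P, hP, hpP, σ, hσ, hne⟩
    obtain ⟨x, hx⟩ := frobs_nonempty (F := F) S (H := ⊤) isOpen_univ
    have hrr : r = r' := by
      have h1 := (poly_good hB.good hx).2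
      have h2 := (poly_good hB'.good hx).2
      obtain ⟨g1, g2, g3, g4, g5, -⟩ := hx
      rw [hpoly _ g1 g2 _ g3 g4 _ g5, h2] at h1
      exact h1.symm
    subst hrr
    have hr := hB.pos
    have hirr := hB.irreducible
    have hirr' := hB'.irreducible
    obtain ⟨N₄, hN₄⟩ := hirr'.residual
    refine ⟨N₁ + N₂ + N₄, fun ℓ hℓ hlt => ?_⟩
    have htr : ∀ g, (B.rat ℓ g : Matrix (Fin r) (Fin r) ℚ_[ℓ]).trace =
        (B'.rat ℓ g : Matrix (Fin r) (Fin r) ℚ_[ℓ]).trace := by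
      intro g
      refine closed_univ' {g | (B.rat ℓ g : Matrix (Fin r) (Fin r) ℚ_[ℓ]).trace =
        (B'.rat ℓ g : Matrix (Fin r) (Fin r) ℚ_[ℓ]).trace}
        (isClosed_eq (continuous_trace_rat hB.good ℓ)
          (continuous_trace_rat hB'.good ℓ)) (S ∪ {ℓ}) ?_ g
      intro p hp hpS P hP hpP σ hσ
      rw [Finset.mem_union, not_or, Finset.mem_singleton] at hpS
      have h1 := trace_frob_rat hr hB.good hp hpS.1 (Ne.symm hpS.2) hP hpP hσ
      have h2 := trace_frob_rat hr hB'.good hp hpS.1 (Ne.symm hpS.2) hP hpP hσ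
      show (B.rat ℓ σ : Matrix (Fin r) (Fin r) ℚ_[ℓ]).trace =
        (B'.rat ℓ σ : Matrix (Fin r) (Fin r) ℚ_[ℓ]).trace
      rw [h1, h2, hpoly p hp hpS.1 P hP hpP σ hσ]
    obtain ⟨M, hM, hMρ⟩ := exists_B hr hirr' hirr ℓ (Set.mem_univ _) htr
    obtain ⟨A, hA⟩ := lat_res (fun U hU => hN₄ ℓ (Set.mem_univ _) (by omega) U hU) hM hMρ
    obtain ⟨e⟩ := equiv_of_gl A hA
    exact (lift_self (hN₂ ℓ (by omega)).2.1 (hN₂ ℓ (by omega)).2.2.1).congr e

/-- **Uniqueness of the lattices.** -/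
theorem unique_of_big {S : Finset ℕ} {w : ℕ} {T : IntegralSystem F n} (hT : BigSum S w T) :
    UniqueLattices T := by
  classical
  obtain ⟨a, A, k, r, B, hA, hB, hsum⟩ := hT.sum
  obtain ⟨NA, hNA⟩ := exists_bound hA
  choose NB hNB using fun i => big_props (hB i)
  choose ND hND using fun i j => lift_pair' (hB i) (hB j)
  obtain ⟨H, hHo, hHc⟩ := hA.abelian
  have hfi : H.FiniteIndex := by
    have : Finite (F.fixingSubgroup ⧸ H) := Subgroup.quotient_finite_of_isOpen _ hHo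
    exact Subgroup.finiteIndex_of_finite_quotient
  have hfc : H.normalCore.FiniteIndex := inferInstance
  refine ⟨NA + ∑ i, NB i + ∑ i, ∑ j, ND i j + H.normalCore.index, fun ℓ hℓ hlt ρ' hρ' => ?_⟩
  have hNBi : ∀ i, NB i < ℓ := fun i => by
    have := Finset.single_le_sum (f := NB) (fun _ _ => Nat.zero_le _) (Finset.mem_univ i)
    omega
  have hNDi : ∀ i j, ND i j < ℓ := fun i j => by
    have h1 := Finset.single_le_sum (f := ND i) (fun _ _ => Nat.zero_le _) (Finset.mem_univ j)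
    have h2 := Finset.single_le_sum (f := fun i => ∑ j, ND i j) (fun _ _ => Nat.zero_le _)
      (Finset.mem_univ i)
    omega
  have hα : ULat (A.rho ℓ) := fun ρ' ⟨M, hM, hMρ⟩ => hNA ℓ (by omega) ρ' M hM hMρ
  have hidx : ¬ ℓ ∣ H.normalCore.index := fun h => by
    have := Nat.le_of_dvd (Nat.pos_of_ne_zero hfc.index_ne_zero) h
    omega
  have hU : ULat (T.rho ℓ) := by
    refine ulat_of_sum' hα (fun i => (hNB i ℓ (hNBi i)).1) (fun i => ?_)
      (fun i j => hND i j ℓ (hNDi i j)) (hsum ℓ)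
    obtain ⟨h1, h2, -, u, b, hu, hu1⟩ := hNB i ℓ (hNBi i)
    exact Lift.of_sep (ul_of_ulat h1) (sep_ab h2 H.normalCore hidx
      (fun g hg h hh => hHc ℓ g (H.normalCore_le hg) h (H.normalCore_le hh)) u b hu hu1)
  exact hU ρ' hρ'

/-- **Finiteness.** -/
theorem main3 (hn : 0 < n) (w : ℕ) (S : Finset ℕ) :
    FinitelyMany (BigSum (F := F) (n := n) S w) ∧
      ∀ T : IntegralSystem F n, BigSum S w T → UniqueLattices T :=
  ⟨finite_of_unique hn w S (fun _ hT => hT.good) (fun _ hT => hT.semisimple)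
    (fun _ hT => unique_of_big hT), fun _ hT => unique_of_big hT⟩

end Pool.Agent.Run7.h879.DS
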